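import Mathlib

/-!
# T-matrices over abelian groups, the Goethals-Seidel array and Williamson type matrices
-/

set_option autoImplicit false

namespace Pool.Agent.Q163.HD

open Finset

section gs

variable {G : Type} [AddCommGroup G] [Fintype G]

/-- correlation -/
def cr (a b : G → ℤ) (d : G) : ℤ := ∑ z, a (z + d) * b z

/-- convolution -/
def cv (a b : G → ℤ) (d : G) : ℤ := ∑ z, a z * b (d - z)

theorem cv_comm (a b : G → ℤ) (d : G) : cv a b d = cv b a d := by
  unfold cv
  rw [← Equiv.sum_comp (Equiv.subLeft d)]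
  refine sum_congr rfl fun z _ => ?_
  simp only [Equiv.subLeft_apply, sub_sub_cancel]
  ring

theorem L1 (a b : G → ℤ) (x y : G) : ∑ z, a (x - z) * b (y - z) = cr a b (x - y) := by
  unfold cr
  rw [← Equiv.sum_comp (Equiv.subLeft y)]
  refine sum_congr rfl fun z _ => ?_
  simp only [Equiv.subLeft_apply, sub_sub_cancel]
  congr 2; abel

theorem L2 (a b : G → ℤ) (x y : G) : ∑ z, a (x + z) * b (y + z) = cr a b (x - y) := by
  unfold cr
  rw [← Equiv.sum_comp (Equiv.subRight y)]
  refine sum_congr rfl fun z _ => ?_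
  simp only [Equiv.subRight_apply]
  congr 2 <;> abel

theorem L3 (a b : G → ℤ) (x y : G) : ∑ z, a (-(x + z)) * b (-(y + z)) = cr b a (x - y) := by
  unfold cr
  rw [← Equiv.sum_comp (Equiv.subLeft (-x))]
  refine sum_congr rfl fun z _ => ?_
  simp only [Equiv.subLeft_apply]
  rw [mul_comm]
  congr 2 <;> abel

theorem L4 (a b : G → ℤ) (x y : G) : ∑ z, a (x - z) * b (y + z) = cv a b (x + y) := by
  unfold cv
  rw [← Equiv.sum_comp (Equiv.subLeft x)]
  refine sum_congr rfl fun z _ => ?_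
  simp only [Equiv.subLeft_apply]
  congr 2 <;> abel

theorem L4' (a b : G → ℤ) (x y : G) : ∑ z, a (x + z) * b (y - z) = cv a b (x + y) := by
  unfold cv
  rw [← Equiv.sum_comp (Equiv.subRight x)]
  refine sum_congr rfl fun z _ => ?_
  simp only [Equiv.subRight_apply]
  congr 2 <;> abel

theorem L5 (a b : G → ℤ) (x y : G) : ∑ z, a (x + z) * b (-(y + z)) = cv a b (x - y) := by
  unfold cv
  rw [← Equiv.sum_comp (Equiv.subRight x)]
  refine sum_congr rfl fun z _ => ?_
  simp only [Equiv.subRight_apply]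
  congr 2 <;> abel

theorem L5' (a b : G → ℤ) (x y : G) : ∑ z, a (-(x + z)) * b (y + z) = cv a b (y - x) := by
  unfold cv
  rw [← Equiv.sum_comp (Equiv.subLeft (-x))]
  refine sum_congr rfl fun z _ => ?_
  simp only [Equiv.subLeft_apply]
  congr 2 <;> abel

theorem L6 (a b : G → ℤ) (x y : G) : ∑ z, a (x - z) * b (-(y + z)) = cr a b (x + y) := by
  unfold cr
  rw [← Equiv.sum_comp (Equiv.subLeft (-y))]
  refine sum_congr rfl fun z _ => ?_
  simp only [Equiv.subLeft_apply]
  congr 2 <;> abel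

theorem L6' (a b : G → ℤ) (x y : G) : ∑ z, a (-(x + z)) * b (y - z) = cr b a (x + y) := by
  unfold cr
  rw [← Equiv.sum_comp (Equiv.subLeft (-x))]
  refine sum_congr rfl fun z _ => ?_
  simp only [Equiv.subLeft_apply]
  rw [mul_comm]
  congr 2 <;> abel

/-- the Goethals-Seidel array -/
def gsM (a : Fin 4 → G → ℤ) (i k : Fin 4) (x z : G) : ℤ :=
  match i, k with
  | 0, 0 => a 0 (x - z)
  | 0, 1 => a 1 (x + z)
  | 0, 2 => a 2 (x + z)
  | 0, 3 => a 3 (x + z)
  | 1, 0 => -a 1 (x + z)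
  | 1, 1 => a 0 (x - z)
  | 1, 2 => a 3 (-(x + z))
  | 1, 3 => -a 2 (-(x + z))
  | 2, 0 => -a 2 (x + z)
  | 2, 1 => -a 3 (-(x + z))
  | 2, 2 => a 0 (x - z)
  | 2, 3 => a 1 (-(x + z))
  | 3, 0 => -a 3 (x + z)
  | 3, 1 => a 2 (-(x + z))
  | 3, 2 => -a 1 (-(x + z))
  | 3, 3 => a 0 (x - z)

theorem gs_mul (a : Fin 4 → G → ℤ) (i j : Fin 4) (x y : G) :
    ∑ k, ∑ z, gsM a i k x z * gsM a j k y z =
      if i = j then ∑ k, cr (a k) (a k) (x - y) else 0 := by
  have e1 := cv_comm (a 0) (a 1)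
  have e2 := cv_comm (a 0) (a 2)
  have e3 := cv_comm (a 0) (a 3)
  have e4 := cv_comm (a 1) (a 2)
  have e5 := cv_comm (a 1) (a 3)
  have e6 := cv_comm (a 2) (a 3)
  fin_cases i <;> fin_cases j <;>
    simp only [Fin.zero_eta, Fin.mk_one, Fin.reduceFinMk, Fin.isValue, Fin.sum_univ_four, gsM,
      neg_mul, mul_neg, neg_neg, Finset.sum_neg_distrib, L1, L2, L3, L4, L4', L5, L5', L6, L6', e1, e2, e3,
      e4, e5, e6] <;> simp <;> ring

/-- T-matrices of type one over `G`, four of them -/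
structure TMat (t : Fin 4 → G → ℤ) : Prop where
  one : ∀ g, ∃ j, (t j g = 1 ∨ t j g = -1) ∧ ∀ l, l ≠ j → t l g = 0
  cor : ∀ d, d ≠ 0 → ∑ j, ∑ z, t j (z + d) * t j z = 0

/-- the four combinations -/
def co (w : Fin 4 → ℤ) (t : Fin 4 → G → ℤ) (k : Fin 4) (g : G) : ℤ :=
  match k with
  | 0 => w 0 * t 0 g + w 1 * t 1 g + w 2 * t 2 g + w 3 * t 3 g
  | 1 => -w 1 * t 0 g + w 0 * t 1 g + w 3 * t 2 g - w 2 * t 3 g
  | 2 => -w 2 * t 0 g - w 3 * t 1 g + w 0 * t 2 g + w 1 * t 3 g
  | 3 => -w 3 * t 0 g + w 2 * t 1 g - w 1 * t 2 g + w 0 * t 3 g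

theorem co_cr [DecidableEq G] (w : Fin 4 → ℤ) {t : Fin 4 → G → ℤ} (ht : TMat t) (d : G) :
    ∑ k, cr (co w t k) (co w t k) d =
      if d = 0 then (∑ k, w k * w k) * (Fintype.card G : ℤ) else 0 := by
  have h1 : ∑ k, cr (co w t k) (co w t k) d =
      (∑ k, w k * w k) * ∑ j, ∑ z, t j (z + d) * t j z := by
    have e : ∑ j, ∑ z, t j (z + d) * t j z = ∑ z, ∑ j, t j (z + d) * t j z := sum_comm
    have e' : ∑ k, cr (co w t k) (co w t k) d = ∑ z, ∑ k, co w t k (z + d) * co w t k z :=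
      sum_comm
    rw [e, e', mul_sum]
    refine sum_congr rfl fun z _ => ?_
    simp only [Fin.sum_univ_four, co]
    ring
  rw [h1]
  by_cases hd : d = 0
  · rw [if_pos hd]
    congr 1
    rw [sum_comm]
    have : ∀ z : G, ∑ j, t j (z + d) * t j z = 1 := by
      intro z
      rw [hd, add_zero]
      obtain ⟨j, hj, hl⟩ := ht.one z
      rw [sum_eq_single j]
      · rcases hj with h | h <;> rw [h] <;> norm_num
      · intro l _ hlj
        rw [hl l hlj, mul_zero]
      · intro h; exact absurd (mem_univ _) h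
    rw [sum_congr rfl fun z _ => this z]
    simp
  · rw [if_neg hd, ht.cor d hd, mul_zero]

/-- the orthogonal design -/
def od (t : Fin 4 → G → ℤ) (w : Fin 4 → ℤ) : Matrix (Fin 4 × G) (Fin 4 × G) ℤ :=
  Matrix.of fun p q => gsM (co w t) p.1 q.1 p.2 q.2

theorem od_mul [DecidableEq G] {t : Fin 4 → G → ℤ} (ht : TMat t) (w : Fin 4 → ℤ) :
    od t w * (od t w).transpose =
      ((∑ k, w k * w k) * (Fintype.card G : ℤ)) • (1 : Matrix (Fin 4 × G) (Fin 4 × G) ℤ) := by
  ext ⟨i, x⟩ ⟨j, y⟩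
  rw [Matrix.mul_apply, Fintype.sum_prod_type]
  have h := gs_mul (co w t) i j x y
  simp only [od, Matrix.transpose_apply, Matrix.of_apply]
  rw [h, Matrix.smul_apply, Matrix.one_apply, smul_eq_mul]
  by_cases hij : i = j
  · rw [if_pos hij, co_cr w ht]
    by_cases hxy : x = y
    · rw [if_pos (by rw [hxy, sub_self]), if_pos (by rw [hij, hxy]), mul_one]
    · rw [if_neg (fun h => hxy (sub_eq_zero.1 h)), if_neg (fun h => hxy (Prod.mk.inj h).2), mul_zero]
  · rw [if_neg hij, if_neg (fun h => hij (Prod.mk.inj h).1), mul_zero]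

theorem co_ent {t : Fin 4 → G → ℤ} (ht : TMat t) (k : Fin 4) (g : G) :
    ∃ (m : Fin 4) (ε : ℤ), (ε = 1 ∨ ε = -1) ∧ ∀ w, co w t k g = ε * w m := by
  obtain ⟨j, hj, hl⟩ := ht.one g
  have key : ∃ (m : Fin 4) (δ : ℤ), (δ = 1 ∨ δ = -1) ∧ ∀ w, co w t k g = t j g * δ * w m := by
    fin_cases j <;> fin_cases k <;>
      simp only [Fin.zero_eta, Fin.mk_one, Fin.reduceFinMk, Fin.isValue, co] at hl ⊢
    · exact ⟨0, 1, Or.inl rfl, fun w => by
        rw [hl 1 (by decide), hl 2 (by decide), hl 3 (by decide)]; ring⟩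
    · exact ⟨1, -1, Or.inr rfl, fun w => by
        rw [hl 1 (by decide), hl 2 (by decide), hl 3 (by decide)]; ring⟩
    · exact ⟨2, -1, Or.inr rfl, fun w => by
        rw [hl 1 (by decide), hl 2 (by decide), hl 3 (by decide)]; ring⟩
    · exact ⟨3, -1, Or.inr rfl, fun w => by
        rw [hl 1 (by decide), hl 2 (by decide), hl 3 (by decide)]; ring⟩
    · exact ⟨1, 1, Or.inl rfl, fun w => by
        rw [hl 0 (by decide), hl 2 (by decide), hl 3 (by decide)]; ring⟩
    · exact ⟨0, 1, Or.inl rfl, fun w => by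
        rw [hl 0 (by decide), hl 2 (by decide), hl 3 (by decide)]; ring⟩
    · exact ⟨3, -1, Or.inr rfl, fun w => by
        rw [hl 0 (by decide), hl 2 (by decide), hl 3 (by decide)]; ring⟩
    · exact ⟨2, 1, Or.inl rfl, fun w => by
        rw [hl 0 (by decide), hl 2 (by decide), hl 3 (by decide)]; ring⟩
    · exact ⟨2, 1, Or.inl rfl, fun w => by
        rw [hl 0 (by decide), hl 1 (by decide), hl 3 (by decide)]; ring⟩
    · exact ⟨3, 1, Or.inl rfl, fun w => by
        rw [hl 0 (by decide), hl 1 (by decide), hl 3 (by decide)]; ring⟩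
    · exact ⟨0, 1, Or.inl rfl, fun w => by
        rw [hl 0 (by decide), hl 1 (by decide), hl 3 (by decide)]; ring⟩
    · exact ⟨1, -1, Or.inr rfl, fun w => by
        rw [hl 0 (by decide), hl 1 (by decide), hl 3 (by decide)]; ring⟩
    · exact ⟨3, 1, Or.inl rfl, fun w => by
        rw [hl 0 (by decide), hl 1 (by decide), hl 2 (by decide)]; ring⟩
    · exact ⟨2, -1, Or.inr rfl, fun w => by
        rw [hl 0 (by decide), hl 1 (by decide), hl 2 (by decide)]; ring⟩
    · exact ⟨1, 1, Or.inl rfl, fun w => by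
        rw [hl 0 (by decide), hl 1 (by decide), hl 2 (by decide)]; ring⟩
    · exact ⟨0, 1, Or.inl rfl, fun w => by
        rw [hl 0 (by decide), hl 1 (by decide), hl 2 (by decide)]; ring⟩
  obtain ⟨m, δ, hδ, h⟩ := key
  refine ⟨m, t j g * δ, ?_, h⟩
  rcases hj with h1 | h1 <;> rcases hδ with h2 | h2 <;> rw [h1, h2] <;> norm_num

theorem od_ent {t : Fin 4 → G → ℤ} (ht : TMat t) (p q : Fin 4 × G) :
    ∃ (m : Fin 4) (ε : ℤ), (ε = 1 ∨ ε = -1) ∧ ∀ w, od t w p q = ε * w m := by
  obtain ⟨i, x⟩ := p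
  obtain ⟨k, z⟩ := q
  have neg : ∀ (k : Fin 4) (g : G), ∃ (m : Fin 4) (ε : ℤ), (ε = 1 ∨ ε = -1) ∧
      ∀ w, -co w t k g = ε * w m := by
    intro k g
    obtain ⟨m, ε, hε, h⟩ := co_ent ht k g
    refine ⟨m, -ε, ?_, fun w => by rw [h]; ring⟩
    rcases hε with h | h <;> rw [h] <;> norm_num
  simp only [od, Matrix.of_apply]
  fin_cases i <;> fin_cases k <;>
    simp only [Fin.zero_eta, Fin.mk_one, Fin.reduceFinMk, Fin.isValue, gsM] <;>
    first
      | exact co_ent ht _ _
      | exact neg _ _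

end gs

/-- four amicable sign matrices of Williamson type -/
structure Wil {ι : Type} [Fintype ι] [DecidableEq ι] (W : Fin 4 → Matrix ι ι ℤ) : Prop where
  sign : ∀ k x y, W k x y = 1 ∨ W k x y = -1
  ami : ∀ k l, W k * (W l).transpose = W l * (W k).transpose
  sq : ∑ k, W k * (W k).transpose = (4 * Fintype.card ι : ℤ) • (1 : Matrix ι ι ℤ)

section plug

open scoped Kronecker

variable {G : Type} [AddCommGroup G] [Fintype G] [DecidableEq G] {ι : Type} [Fintype ι]
  [DecidableEq ι]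

/-- unit vectors -/
def un (k : Fin 4) : Fin 4 → ℤ := fun l => if l = k then 1 else 0

theorem od_add (t : Fin 4 → G → ℤ) (v w : Fin 4 → ℤ) : od t (v + w) = od t v + od t w := by
  ext ⟨i, x⟩ ⟨k, z⟩
  simp only [od, Matrix.of_apply, Matrix.add_apply]
  fin_cases i <;> fin_cases k <;>
    simp only [Fin.zero_eta, Fin.mk_one, Fin.reduceFinMk, Fin.isValue, gsM, co, Pi.add_apply] <;>
    ring

theorem od_pair {t : Fin 4 → G → ℤ} (ht : TMat t) (k l : Fin 4) :
    od t (un k) * (od t (un l)).transpose + od t (un l) * (od t (un k)).transpose =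
      if k = l then (2 * (Fintype.card G : ℤ)) • (1 : Matrix (Fin 4 × G) (Fin 4 × G) ℤ) else 0 := by
  have hk := od_mul ht (un k)
  have hl := od_mul ht (un l)
  have hun : ∀ k, ∑ m, un k m * un k m = 1 := by
    intro k
    unfold un
    simp
  rw [hun, one_mul] at hk hl
  by_cases h : k = l
  · subst h
    rw [if_pos rfl, hk, ← add_smul]
    congr 1
    ring
  · rw [if_neg h]
    have hkl := od_mul ht (un k + un l)
    have e : ∑ m, (un k + un l) m * (un k + un l) m = 2 := by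
      have : ∀ m, (un k + un l) m * (un k + un l) m = un k m * un k m + un l m * un l m := by
        intro m
        simp only [un, Pi.add_apply]
        by_cases h1 : m = k
        · have h2 : m ≠ l := fun h' => h (h1.symm.trans h')
          simp [h1, h]
        · simp [h1]
      rw [sum_congr rfl fun m _ => this m, sum_add_distrib, hun, hun]
      norm_num
    rw [e, od_add, Matrix.transpose_add, add_mul, mul_add, mul_add, hk, hl] at hkl
    have h3 : (2 * (Fintype.card G : ℤ)) • (1 : Matrix (Fin 4 × G) (Fin 4 × G) ℤ) =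
        (Fintype.card G : ℤ) • 1 + (Fintype.card G : ℤ) • 1 := by
      rw [two_mul, add_smul]
    rw [h3] at hkl
    have h4 : ∀ A B C D E : Matrix (Fin 4 × G) (Fin 4 × G) ℤ, A + B + (C + D) = A + D → B + C = 0 := by
      intro A B C D E h
      have : B + C = (A + B + (C + D)) - (A + D) := by abel
      rw [this, h, sub_self]
    exact h4 _ _ _ _ 0 hkl

/-- the big matrix -/
def big (t : Fin 4 → G → ℤ) (W : Fin 4 → Matrix ι ι ℤ) :
    Matrix ((Fin 4 × G) × ι) ((Fin 4 × G) × ι) ℤ := ∑ k, od t (un k) ⊗ₖ W k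

theorem big_sign {t : Fin 4 → G → ℤ} (ht : TMat t) {W : Fin 4 → Matrix ι ι ℤ} (hW : Wil W)
    (p q : (Fin 4 × G) × ι) : big t W p q = 1 ∨ big t W p q = -1 := by
  obtain ⟨p, x⟩ := p
  obtain ⟨q, y⟩ := q
  obtain ⟨m, ε, hε, h⟩ := od_ent ht p q
  have e : big t W (p, x) (q, y) = ε * W m x y := by
    unfold big
    rw [Matrix.sum_apply]
    simp only [Matrix.kroneckerMap_apply, h]
    rw [sum_eq_single m]
    · simp [un]
    · intro k _ hk
      rw [un, if_neg (Ne.symm hk)]
      ring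
    · intro h; exact absurd (mem_univ _) h
  rw [e]
  rcases hε with h1 | h1 <;> rcases hW.sign m x y with h2 | h2 <;> rw [h1, h2] <;> norm_num

theorem big_mul {t : Fin 4 → G → ℤ} (ht : TMat t) {W : Fin 4 → Matrix ι ι ℤ} (hW : Wil W) :
    big t W * (big t W).transpose = ((4 * Fintype.card G * Fintype.card ι : ℕ) : ℤ) •
      (1 : Matrix ((Fin 4 × G) × ι) ((Fin 4 × G) × ι) ℤ) := by
  have h1 : big t W * (big t W).transpose =
      ∑ k, ∑ l, (od t (un k) * (od t (un l)).transpose) ⊗ₖ (W k * (W l).transpose) := by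
    unfold big
    rw [Matrix.transpose_sum, Finset.sum_mul]
    refine Finset.sum_congr rfl fun k _ => ?_
    rw [Finset.mul_sum]
    refine Finset.sum_congr rfl fun l _ => ?_
    rw [← Matrix.kroneckerMap_transpose, ← Matrix.mul_kronecker_mul]
  have h2 : big t W * (big t W).transpose =
      ∑ k, ∑ l, (od t (un l) * (od t (un k)).transpose) ⊗ₖ (W k * (W l).transpose) := by
    rw [h1, sum_comm]
    refine Finset.sum_congr rfl fun k _ => Finset.sum_congr rfl fun l _ => ?_
    rw [hW.ami]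
  have h3 : big t W * (big t W).transpose + big t W * (big t W).transpose =
      (2 * (Fintype.card G : ℤ)) • ((1 : Matrix (Fin 4 × G) (Fin 4 × G) ℤ) ⊗ₖ
        (∑ k, W k * (W k).transpose)) := by
    conv_lhs => rw [h1]
    nth_rewrite 2 [← h1]
    rw [h2, ← sum_add_distrib]
    have : ∀ k, ∑ l, (od t (un k) * (od t (un l)).transpose) ⊗ₖ (W k * (W l).transpose) +
        ∑ l, (od t (un l) * (od t (un k)).transpose) ⊗ₖ (W k * (W l).transpose) =
        ((2 * (Fintype.card G : ℤ)) • (1 : Matrix (Fin 4 × G) (Fin 4 × G) ℤ)) ⊗ₖ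
          (W k * (W k).transpose) := by
      intro k
      rw [← sum_add_distrib, sum_eq_single k]
      · rw [← Matrix.add_kronecker, od_pair ht, if_pos rfl]
      · intro l _ hl
        rw [← Matrix.add_kronecker, od_pair ht, if_neg (Ne.symm hl), Matrix.zero_kronecker]
      · intro h; exact absurd (mem_univ _) h
    rw [sum_congr rfl fun k _ => this k]
    ext i j
    simp only [Matrix.sum_apply, Matrix.kroneckerMap_apply, Matrix.smul_apply, smul_eq_mul,
      mul_sum]
    refine sum_congr rfl fun k _ => ?_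
    ring
  rw [hW.sq] at h3
  ext p q
  have h4 := congrFun (congrFun h3 p) q
  obtain ⟨p, x⟩ := p
  obtain ⟨q, y⟩ := q
  rw [Matrix.add_apply, Matrix.smul_apply, Matrix.kroneckerMap_apply, Matrix.smul_apply,
    smul_eq_mul, smul_eq_mul] at h4
  rw [Matrix.smul_apply, smul_eq_mul, Matrix.one_apply]
  by_cases h5 : p = q
  · by_cases h6 : x = y
    · subst h5 h6
      simp only [Matrix.one_apply_eq, if_true] at h4 ⊢
      push_cast
      linarith
    · rw [if_neg (fun h => h6 (Prod.mk.inj h).2), Matrix.one_apply_ne h6] at *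
      linarith
  · rw [if_neg (fun h => h5 (Prod.mk.inj h).1), Matrix.one_apply_ne h5] at *
    linarith

end plug

end Pool.Agent.Q163.HD
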