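import Mathlib
import Pool.Agent.TH432.Had.Miya

/-! A Hadamard matrix of order `4 (2 r + 1)` from a pair of symmetric commuting matrices of order
`r` with `A A + B B = (2 r - 1) I` (the blocks of a symmetric conference matrix of order `2 r`) and a
skew core of order `r` (after a theorem of Yamada). -/

set_option autoImplicit false

namespace Pool.Agent.Q163.HD

open Finset
open Pool.Agent.H108R3.Had (HasHad)
open Pool.Agent.TH432.Had (had_reindex)

/-- the data of the construction -/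
structure YData (α : Type) [Fintype α] [DecidableEq α] where
  A : α → α → ℤ
  B : α → α → ℤ
  S : α → α → ℤ
  r : ℤ
  hr : (Fintype.card α : ℤ) = r
  A0 : ∀ x, A x x = 0
  A1 : ∀ x y, x ≠ y → A x y = 1 ∨ A x y = -1
  As : ∀ x y, A y x = A x y
  B1 : ∀ x y, B x y = 1 ∨ B x y = -1
  Bs : ∀ x y, B y x = B x y
  S0 : ∀ x, S x x = 0
  S1 : ∀ x y, x ≠ y → S x y = 1 ∨ S x y = -1
  Sk : ∀ x y, S y x = - S x y
  Sr : ∀ x, ∑ y, S x y = 0
  AB : ∀ x y, ∑ z, A x z * A y z + ∑ z, B x z * B y z = if x = y then 2 * r - 1 else 0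
  com : ∀ x y, ∑ z, A x z * B y z = ∑ z, B x z * A y z
  SS : ∀ x y, ∑ z, S x z * S y z = (if x = y then r else 0) - 1

/-- coefficients of `A` -/
def ca : Fin 4 → Fin 4 → ℤ := ![![1, 0, 0, 0], ![0, -1, 0, 0], ![0, 0, 0, 1], ![0, 0, 1, 0]]
/-- coefficients of `B` -/
def cb : Fin 4 → Fin 4 → ℤ := ![![0, 1, 0, 0], ![1, 0, 0, 0], ![0, 0, -1, 0], ![0, 0, 0, 1]]
/-- coefficients of the identity in the alternating part -/
def cc : Fin 4 → Fin 4 → ℤ := ![![0, 0, 1, 1], ![0, 0, -1, 1], ![-1, 1, 0, 0], ![-1, -1, 0, 0]]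
/-- coefficients of the identity in the constant part -/
def cd : Fin 4 → Fin 4 → ℤ := ![![1, 0, 0, 0], ![0, 1, 0, 0], ![0, 0, 0, 1], ![0, 0, 1, 0]]
/-- coefficients of `S` -/
def ce : Fin 4 → Fin 4 → ℤ := ![![0, 0, 1, 1], ![0, 0, 1, -1], ![1, -1, 0, 0], ![1, 1, 0, 0]]
/-- corner -/
def cD : Fin 4 → Fin 4 → ℤ := ![![-1, 1, 1, 1], ![1, -1, 1, 1], ![1, 1, -1, 1], ![1, 1, 1, -1]]
/-- border rows -/
def cG : Fin 4 → Fin 4 → ℤ := ![![1, 1, 1, 1], ![1, -1, 1, -1], ![1, 1, -1, -1], ![1, -1, -1, 1]]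
/-- border columns -/
def cF : Fin 4 → Fin 4 → ℤ := ![![-1, -1, -1, -1], ![1, -1, 1, -1], ![1, -1, -1, 1], ![1, 1, -1, -1]]

namespace YData

variable {α : Type} [Fintype α] [DecidableEq α] (Y : YData α)

/-- Kronecker delta -/
def dl (x y : α) : ℤ := if x = y then 1 else 0

omit [Fintype α] in
theorem dl_comm (x y : α) : dl x y = dl y x := by
  unfold dl
  by_cases h : x = y
  · rw [if_pos h, if_pos h.symm]
  · rw [if_neg h, if_neg fun h' => h h'.symm]

theorem sum_dl (x : α) (f : α → ℤ) : ∑ z, dl x z * f z = f x := by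
  unfold dl
  simp

theorem sum_dl' (x : α) (f : α → ℤ) : ∑ z, f z * dl x z = f x := by
  rw [← sum_dl x f]
  exact sum_congr rfl fun z _ => mul_comm _ _

/-- alternating part -/
def v (p : Fin 4 × α) (q : Fin 4 × α) : ℤ :=
  ca p.1 q.1 * Y.A p.2 q.2 + cb p.1 q.1 * Y.B p.2 q.2 + cc p.1 q.1 * dl p.2 q.2

/-- constant part -/
def u (p : Fin 4 × α) (q : Fin 4 × α) : ℤ :=
  cd p.1 q.1 * dl p.2 q.2 + ce p.1 q.1 * Y.S p.2 q.2

theorem vrow (a b c a' b' c' : ℤ) (x y : α) :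
    ∑ z, (a * Y.A x z + b * Y.B x z + c * dl x z) * (a' * Y.A y z + b' * Y.B y z + c' * dl y z) =
      a * a' * ∑ z, Y.A x z * Y.A y z + b * b' * ∑ z, Y.B x z * Y.B y z +
      (a * b' + b * a') * ∑ z, Y.A x z * Y.B y z + (a * c' + c * a') * Y.A x y +
      (b * c' + c * b') * Y.B x y + c * c' * dl x y := by
  have h1 : ∀ z, (a * Y.A x z + b * Y.B x z + c * dl x z) *
      (a' * Y.A y z + b' * Y.B y z + c' * dl y z) =
      a * a' * (Y.A x z * Y.A y z) + b * b' * (Y.B x z * Y.B y z) + a * b' * (Y.A x z * Y.B y z) +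
      b * a' * (Y.B x z * Y.A y z) + a * c' * (Y.A x z * dl y z) + c * a' * (dl x z * Y.A y z) +
      b * c' * (Y.B x z * dl y z) + c * b' * (dl x z * Y.B y z) + c * c' * (dl x z * dl y z) := by
    intro z; ring
  rw [sum_congr rfl fun z _ => h1 z]
  simp only [sum_add_distrib, ← mul_sum]
  have e1 : ∑ z, Y.A x z * dl y z = Y.A x y := sum_dl' y _
  have e2 : ∑ z, dl x z * Y.A y z = Y.A x y := by rw [sum_dl x]; exact Y.As x y
  have e3 : ∑ z, Y.B x z * dl y z = Y.B x y := sum_dl' y _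
  have e4 : ∑ z, dl x z * Y.B y z = Y.B x y := by rw [sum_dl x]; exact Y.Bs x y
  have e5 : ∑ z, dl x z * dl y z = dl x y := by rw [sum_dl x]; exact dl_comm y x
  rw [e1, e2, e3, e4, e5, ← Y.com]
  ring

theorem urow (d e d' e' : ℤ) (x y : α) :
    ∑ z, (d * dl x z + e * Y.S x z) * (d' * dl y z + e' * Y.S y z) =
      d * d' * dl x y + (e * d' - d * e') * Y.S x y + e * e' * ∑ z, Y.S x z * Y.S y z := by
  have h1 : ∀ z, (d * dl x z + e * Y.S x z) * (d' * dl y z + e' * Y.S y z) =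
      d * d' * (dl x z * dl y z) + d * e' * (dl x z * Y.S y z) + e * d' * (Y.S x z * dl y z) +
      e * e' * (Y.S x z * Y.S y z) := by
    intro z; ring
  rw [sum_congr rfl fun z _ => h1 z]
  simp only [sum_add_distrib, ← mul_sum]
  have e1 : ∑ z, Y.S x z * dl y z = Y.S x y := sum_dl' y _
  have e2 : ∑ z, dl x z * Y.S y z = - Y.S x y := by rw [sum_dl x]; exact Y.Sk x y
  have e5 : ∑ z, dl x z * dl y z = dl x y := by rw [sum_dl x]; exact dl_comm y x
  rw [e1, e2, e5]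
  ring

theorem vv (p q : Fin 4 × α) : ∑ z, Y.v p z * Y.v q z = if p = q then 2 * Y.r + 1 else 0 := by
  obtain ⟨i, x⟩ := p
  obtain ⟨j, y⟩ := q
  rw [Fintype.sum_prod_type]
  simp only [v]
  have hAB := Y.AB x y
  have hdl : dl x y = if x = y then 1 else 0 := rfl
  have key : ∀ l : Fin 4, ∑ z, (ca i l * Y.A x z + cb i l * Y.B x z + cc i l * dl x z) *
      (ca j l * Y.A y z + cb j l * Y.B y z + cc j l * dl y z) =
      ca i l * ca j l * ∑ z, Y.A x z * Y.A y z + cb i l * cb j l * ∑ z, Y.B x z * Y.B y z +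
      (ca i l * cb j l + cb i l * ca j l) * ∑ z, Y.A x z * Y.B y z +
      (ca i l * cc j l + cc i l * ca j l) * Y.A x y +
      (cb i l * cc j l + cc i l * cb j l) * Y.B x y + cc i l * cc j l * dl x y := fun l =>
    Y.vrow _ _ _ _ _ _ x y
  rw [Fin.sum_univ_four]
  simp only [key]
  generalize ∑ z, Y.A x z * Y.A y z = P at hAB ⊢
  generalize ∑ z, Y.B x z * Y.B y z = Q at hAB ⊢
  generalize ∑ z, Y.A x z * Y.B y z = T
  generalize Y.A x y = a
  generalize Y.B x y = b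
  by_cases hxy : x = y
  · rw [if_pos hxy] at hAB hdl
    rw [hdl]
    fin_cases i <;> fin_cases j <;> simp [ca, cb, cc, hxy] <;> linarith
  · rw [if_neg hxy] at hAB hdl
    rw [hdl]
    fin_cases i <;> fin_cases j <;> simp [ca, cb, cc, hxy] <;> linarith

theorem uu (p q : Fin 4 × α) : ∑ z, Y.u p z * Y.u q z =
    (if p = q then 2 * Y.r + 1 else 0) - if p.1 = q.1 then 2 else 0 := by
  obtain ⟨i, x⟩ := p
  obtain ⟨j, y⟩ := q
  rw [Fintype.sum_prod_type]
  simp only [u]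
  have hSS := Y.SS x y
  have hdl : dl x y = if x = y then 1 else 0 := rfl
  have key : ∀ l : Fin 4, ∑ z, (cd i l * dl x z + ce i l * Y.S x z) *
      (cd j l * dl y z + ce j l * Y.S y z) =
      cd i l * cd j l * dl x y + (ce i l * cd j l - cd i l * ce j l) * Y.S x y +
        ce i l * ce j l * ∑ z, Y.S x z * Y.S y z := fun l =>
    Y.urow _ _ _ _ x y
  rw [Fin.sum_univ_four]
  simp only [key]
  rw [hSS]
  generalize Y.S x y = a
  by_cases hxy : x = y
  · rw [if_pos hxy] at hdl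
    rw [hdl, if_pos hxy]
    fin_cases i <;> fin_cases j <;> simp [cd, ce, hxy] <;> ring
  · rw [if_neg hxy] at hdl
    rw [hdl, if_neg hxy]
    fin_cases i <;> fin_cases j <;> simp [cd, ce, hxy]

/-- sign of a boolean -/
def sg (b : Bool) : ℤ := if b then -1 else 1

/-- the matrix -/
def M : Fin 4 ⊕ (Bool × (Fin 4 × α)) → Fin 4 ⊕ (Bool × (Fin 4 × α)) → ℤ
  | Sum.inl i, Sum.inl j => cD i j
  | Sum.inl i, Sum.inr q => cG i q.2.1
  | Sum.inr p, Sum.inl j => cF p.2.1 j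
  | Sum.inr p, Sum.inr q => sg p.1 * sg q.1 * Y.v p.2 q.2 + Y.u p.2 q.2

theorem inner (p q : Bool × (Fin 4 × α)) :
    ∑ z : Bool × (Fin 4 × α), (sg p.1 * sg z.1 * Y.v p.2 z.2 + Y.u p.2 z.2) *
      (sg q.1 * sg z.1 * Y.v q.2 z.2 + Y.u q.2 z.2) =
    2 * (sg p.1 * sg q.1) * (if p.2 = q.2 then 2 * Y.r + 1 else 0) +
      2 * ((if p.2 = q.2 then 2 * Y.r + 1 else 0) - if p.2.1 = q.2.1 then 2 else 0) := by
  rw [Fintype.sum_prod_type, Fintype.sum_bool, ← sum_add_distrib]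
  have h1 : ∀ z : Fin 4 × α, (sg p.1 * sg true * Y.v p.2 z + Y.u p.2 z) *
      (sg q.1 * sg true * Y.v q.2 z + Y.u q.2 z) + (sg p.1 * sg false * Y.v p.2 z + Y.u p.2 z) *
      (sg q.1 * sg false * Y.v q.2 z + Y.u q.2 z) =
      2 * (sg p.1 * sg q.1) * (Y.v p.2 z * Y.v q.2 z) + 2 * (Y.u p.2 z * Y.u q.2 z) := by
    intro z
    simp only [sg, if_true, Bool.false_eq_true, if_false]
    ring
  rw [sum_congr rfl fun z _ => h1 z, sum_add_distrib, ← mul_sum, ← mul_sum, Y.vv, Y.uu]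

theorem usum (p : Fin 4 × α) (f : Fin 4 → ℤ) :
    ∑ z : Fin 4 × α, f z.1 * Y.u p z = ∑ l, f l * cd p.1 l := by
  rw [Fintype.sum_prod_type]
  refine sum_congr rfl fun l _ => ?_
  simp only [u]
  have h1 : ∀ z, f l * (cd p.1 l * dl p.2 z + ce p.1 l * Y.S p.2 z) =
      (f l * cd p.1 l) * dl p.2 z + (f l * ce p.1 l) * Y.S p.2 z := by
    intro z; ring
  rw [sum_congr rfl fun z _ => h1 z, sum_add_distrib, ← mul_sum, ← mul_sum, Y.Sr]
  have h2 : ∑ z, dl p.2 z = 1 := by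
    have := sum_dl p.2 (fun _ => (1 : ℤ))
    simpa using this
  rw [h2]
  ring

theorem bord (i : Fin 4) (p : Bool × (Fin 4 × α)) :
    ∑ z : Bool × (Fin 4 × α), cG i z.2.1 * (sg p.1 * sg z.1 * Y.v p.2 z.2 + Y.u p.2 z.2) =
      2 * ∑ l, cG i l * cd p.2.1 l := by
  rw [← Y.usum, Fintype.sum_prod_type, Fintype.sum_bool, ← sum_add_distrib, mul_sum]
  refine sum_congr rfl fun z _ => ?_
  simp only [sg, if_true, Bool.false_eq_true, if_false]
  ring

theorem main_row (p q : Fin 4 ⊕ (Bool × (Fin 4 × α))) :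
    ∑ z, Y.M p z * Y.M q z = if p = q then 4 * (2 * Y.r + 1) else 0 := by
  rw [Fintype.sum_sum_type]
  rcases p with i | p <;> rcases q with j | q
  · simp only [M, Sum.inl.injEq]
    have h1 : ∑ z : Bool × (Fin 4 × α), cG i z.2.1 * cG j z.2.1 =
        2 * (Y.r * ∑ l, cG i l * cG j l) := by
      rw [Fintype.sum_prod_type, Fintype.sum_bool, ← two_mul]
      congr 1
      rw [Fintype.sum_prod_type, mul_sum]
      refine sum_congr rfl fun l _ => ?_
      simp only [sum_const, card_univ, nsmul_eq_mul, Y.hr]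
    rw [h1, Fin.sum_univ_four, Fin.sum_univ_four]
    fin_cases i <;> fin_cases j <;> simp [cD, cG] <;> ring
  · simp only [M, reduceCtorEq, if_false]
    rw [Y.bord, Fin.sum_univ_four, Fin.sum_univ_four]
    obtain ⟨s, k, x⟩ := q
    fin_cases i <;> fin_cases k <;> simp [cD, cF, cG, cd]
  · simp only [M, reduceCtorEq, if_false]
    have h1 : ∑ z : Bool × (Fin 4 × α), (sg p.1 * sg z.1 * Y.v p.2 z.2 + Y.u p.2 z.2) * cG j z.2.1 =
        2 * ∑ l, cG j l * cd p.2.1 l := by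
      rw [← Y.bord]
      exact sum_congr rfl fun z _ => mul_comm _ _
    rw [h1, Fin.sum_univ_four, Fin.sum_univ_four]
    obtain ⟨s, k, x⟩ := p
    fin_cases j <;> fin_cases k <;> simp [cD, cF, cG, cd]
  · simp only [M, Sum.inr.injEq]
    rw [Y.inner, Fin.sum_univ_four]
    obtain ⟨s, k, x⟩ := p
    obtain ⟨s', k', x'⟩ := q
    simp only [Prod.mk.injEq]
    by_cases hx : x = x'
    · cases s <;> cases s' <;> fin_cases k <;> fin_cases k' <;> simp [cF, sg, hx] <;> ring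
    · cases s <;> cases s' <;> fin_cases k <;> fin_cases k' <;> simp [cF, sg, hx]

theorem M_sign (p q : Fin 4 ⊕ (Bool × (Fin 4 × α))) : Y.M p q = 1 ∨ Y.M p q = -1 := by
  rcases p with i | p <;> rcases q with j | q
  · fin_cases i <;> fin_cases j <;> simp [M, cD]
  · obtain ⟨s, k, x⟩ := q
    fin_cases i <;> fin_cases k <;> simp [M, cG]
  · obtain ⟨s, k, x⟩ := p
    fin_cases j <;> fin_cases k <;> simp [M, cF]
  · obtain ⟨s, k, x⟩ := p
    obtain ⟨s', k', x'⟩ := q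
    simp only [M, v, u]
    have hss : sg s * sg s' = 1 ∨ sg s * sg s' = -1 := by
      cases s <;> cases s' <;> simp [sg]
    by_cases hx : x = x'
    · subst hx
      rw [Y.A0, Y.S0]
      have hd : dl x x = 1 := by simp [dl]
      rw [hd]
      rcases Y.B1 x x with hB | hB <;> rw [hB] <;> rcases hss with h | h <;> rw [h] <;>
        fin_cases k <;> fin_cases k' <;> simp [ca, cb, cc, cd, ce]
    · have hd : dl x x' = 0 := by simp [dl, hx]
      rw [hd]
      rcases Y.A1 x x' hx with hA | hA <;> rcases Y.B1 x x' with hB | hB <;>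
        rcases Y.S1 x x' hx with hS | hS <;> rw [hA, hB, hS] <;> rcases hss with h | h <;>
        rw [h] <;> fin_cases k <;> fin_cases k' <;> simp [ca, cb, cc, cd, ce]

theorem hasHad (n : ℕ) (hn : (n : ℤ) = 4 * (2 * Y.r + 1)) : HasHad n := by
  apply had_reindex (ι := Fin 4 ⊕ (Bool × (Fin 4 × α))) _ Y.M Y.M_sign
  · intro p p'
    rw [Y.main_row, hn]
  · have h := Y.hr
    simp only [Fintype.card_sum, Fintype.card_prod, Fintype.card_bool, Fintype.card_fin]
    zify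
    linarith

end YData

end Pool.Agent.Q163.HD
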