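import Mathlib
import Pool.Agent.Q163.HD.Yam
import Pool.Agent.Y342.SK.Core

/-! The symmetric conference matrix on the projective line over a field with `q = 1 (mod 4)`
elements, split by a fixed point free involution. -/

set_option autoImplicit false

namespace Pool.Agent.Q163.HD

open Finset
open Pool.Agent.H108R3.Had (HasHad)
open Pool.Agent.TH432.Had (sum_chi chi_neg chi_neg_one chi_sq char_ne_two)

section split

variable {Ω : Type} [Fintype Ω]

/-- a transversal of an involution -/
abbrev Tv {n : ℕ} (e : Ω ≃ Fin n) (τ : Ω → Ω) : Type := {x : Ω // e x < e (τ x)}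

theorem sum_split {n : ℕ} (e : Ω ≃ Fin n) (τ : Ω → Ω) (hτ : ∀ x, τ (τ x) = x)
    (hne : ∀ x, τ x ≠ x) (f : Ω → ℤ) : ∑ x, f x = ∑ x : Tv e τ, (f x + f (τ x)) := by
  have h1 : ∑ x : Tv e τ, (f x + f (τ x)) =
      ∑ x ∈ univ.filter (fun x => e x < e (τ x)), (f x + f (τ x)) := by
    symm
    apply Finset.sum_subtype
    intro x
    simp
  rw [h1, sum_add_distrib, ← Finset.sum_filter_add_sum_filter_not univ (fun x => e x < e (τ x))]
  congr 1
  refine Finset.sum_nbij' τ τ ?_ ?_ ?_ ?_ ?_
  · intro x hx
    simp only [mem_filter, mem_univ, true_and, not_lt] at hx ⊢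
    rw [hτ]
    exact lt_of_le_of_ne hx fun h => hne x (e.injective h)
  · intro x hx
    simp only [mem_filter, mem_univ, true_and, not_lt] at hx ⊢
    rw [hτ]
    exact hx.le
  · intro x _; exact hτ x
  · intro x _; exact hτ x
  · intro x _; rw [hτ]

end split

section paley

variable {F : Type} [Field F] [Fintype F] [DecidableEq F]

/-- the conference matrix of the projective line -/
noncomputable def pc : Option F → Option F → ℤ
  | none, none => 0
  | none, some _ => 1
  | some _, none => 1
  | some x, some y => quadraticChar F (x - y)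

/-- the involution -/
noncomputable def tau (c : F) : Option F → Option F
  | none => some 0
  | some x => if x = 0 then none else some (c / x)

/-- the signs of the involution -/
noncomputable def ts : Option F → ℤ
  | none => 1
  | some x => if x = 0 then -1 else quadraticChar F x

theorem pc_diag (x : Option F) : pc x x = 0 := by
  rcases x with _ | x <;> simp [pc]

theorem pc_sign (x y : Option F) (h : x ≠ y) : pc x y = 1 ∨ pc x y = -1 := by
  rcases x with _ | x <;> rcases y with _ | y
  · exact absurd rfl h
  · left; rfl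
  · left; rfl
  · exact quadraticChar_dichotomy (sub_ne_zero.2 fun h' => h (by rw [h']))

theorem pc_symm (h4 : Fintype.card F % 4 = 1) (x y : Option F) : pc y x = pc x y := by
  rcases x with _ | x <;> rcases y with _ | y
  · rfl
  · rfl
  · rfl
  · simp only [pc]
    rw [← chi_neg h4, neg_sub]

theorem sum_shift (h4 : Fintype.card F % 4 = 1) (x : F) : ∑ z, quadraticChar F (x - z) = 0 := by
  have h7 := Equiv.sum_comp (Equiv.subLeft x) (fun w => quadraticChar F w)
  simp only [Equiv.subLeft_apply] at h7
  rw [h7, quadraticChar_sum_zero (char_ne_two h4)]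

theorem pc_mul (h4 : Fintype.card F % 4 = 1) (x y : Option F) :
    ∑ z, pc x z * pc y z = if x = y then (Fintype.card F : ℤ) else 0 := by
  rw [Fintype.sum_option]
  rcases x with _ | x <;> rcases y with _ | y
  · simp [pc]
  · simp only [pc, one_mul, mul_one, zero_mul, zero_add, reduceCtorEq, if_false]
    exact sum_shift h4 y
  · simp only [pc, one_mul, mul_one, mul_zero, zero_add, reduceCtorEq, if_false]
    exact sum_shift h4 x
  · simp only [pc, mul_one, Option.some.injEq]
    rw [sum_chi h4]
    ring

theorem tau_tau {c : F} (hc : c ≠ 0) (x : Option F) : tau c (tau c x) = x := by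
  rcases x with _ | x
  · simp [tau]
  · by_cases hx : x = 0
    · subst hx; simp [tau]
    · have h1 : c / x ≠ 0 := div_ne_zero hc hx
      simp only [tau, if_neg hx, if_neg h1]
      congr 1
      field_simp

theorem tau_ne {c : F} (hc : ¬ IsSquare c) (x : Option F) : tau c x ≠ x := by
  rcases x with _ | x
  · simp [tau]
  · by_cases hx : x = 0
    · subst hx; simp [tau]
    · simp only [tau, if_neg hx]
      intro h
      rw [Option.some.injEq] at h
      apply hc
      refine ⟨x, ?_⟩
      rw [div_eq_iff hx] at h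
      exact h

theorem ts_sq (x : Option F) : ts x * ts x = 1 := by
  rcases x with _ | x
  · simp [ts]
  · by_cases hx : x = 0
    · subst hx; simp [ts]
    · simp only [ts, if_neg hx]
      exact chi_sq hx

theorem ts_cases (x : Option F) : ts x = 1 ∨ ts x = -1 := by
  rcases x with _ | x
  · simp [ts]
  · by_cases hx : x = 0
    · subst hx; simp [ts]
    · simp only [ts, if_neg hx]
      exact quadraticChar_dichotomy hx

theorem chi_inv (x : F) : quadraticChar F x⁻¹ = quadraticChar F x := by
  by_cases hx : x = 0
  · subst hx; simp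
  · have h1 : quadraticChar F x * quadraticChar F x⁻¹ = 1 := by
      rw [← map_mul, mul_inv_cancel₀ hx, map_one]
    have h2 := chi_sq hx
    calc quadraticChar F x⁻¹ = (quadraticChar F x * quadraticChar F x) * quadraticChar F x⁻¹ := by
          rw [h2, one_mul]
      _ = quadraticChar F x * (quadraticChar F x * quadraticChar F x⁻¹) := by ring
      _ = quadraticChar F x := by rw [h1, mul_one]

theorem pc_tau (h4 : Fintype.card F % 4 = 1) {c : F} (hc : quadraticChar F c = -1)
    (x y : Option F) : pc (tau c x) (tau c y) * (ts x * ts y) = - pc x y := by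
  have hc0 : c ≠ 0 := by
    rintro rfl
    simp at hc
  rcases x with _ | x <;> rcases y with _ | y
  · simp [tau, pc]
  · by_cases hy : y = 0
    · subst hy; simp [tau, pc, ts]
    · simp only [tau, pc, ts, if_neg hy, zero_sub, one_mul]
      rw [chi_neg h4, div_eq_mul_inv, map_mul, hc, chi_inv]
      have := chi_sq hy
      rcases quadraticChar_dichotomy hy with h | h <;> rw [h] <;> norm_num
  · by_cases hx : x = 0
    · subst hx; simp [tau, pc, ts]
    · simp only [tau, pc, ts, if_neg hx, sub_zero, mul_one]
      rw [div_eq_mul_inv, map_mul, hc, chi_inv]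
      rcases quadraticChar_dichotomy hx with h | h <;> rw [h] <;> norm_num
  · by_cases hx : x = 0
    · subst hx
      by_cases hy : y = 0
      · subst hy; simp [tau, pc]
      · simp only [tau, pc, ts, if_neg hy, if_true, zero_sub, one_mul]
        rw [chi_neg h4]
        ring
    · by_cases hy : y = 0
      · subst hy
        simp only [tau, pc, ts, if_neg hx, if_true, sub_zero]
        ring
      · simp only [tau, pc, ts, if_neg hx, if_neg hy]
        have e1 : c / x - c / y = c * ((y - x) * (x * y)⁻¹) := by
          field_simp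
        rw [e1, map_mul, map_mul, hc, chi_inv, map_mul, ← chi_neg h4 (y - x), neg_sub]
        rcases quadraticChar_dichotomy hx with h | h <;>
          rcases quadraticChar_dichotomy hy with h' | h' <;> rw [h, h'] <;> norm_num

/-- the second block -/
noncomputable def pB (c : F) (x y : Option F) : ℤ := ts y * pc x (tau c y)

theorem pc_tau' (h4 : Fintype.card F % 4 = 1) {c : F} (hc : quadraticChar F c = -1)
    (x y : Option F) : pc (tau c x) (tau c y) = - (ts x * ts y * pc x y) := by
  have h1 := pc_tau h4 hc x y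
  have hx := ts_sq x
  have hy := ts_sq y
  calc pc (tau c x) (tau c y) = (ts x * ts x) * (ts y * ts y) * pc (tau c x) (tau c y) := by
        rw [hx, hy]; ring
    _ = (ts x * ts y) * (pc (tau c x) (tau c y) * (ts x * ts y)) := by ring
    _ = _ := by rw [h1]; ring

theorem ts_tau {c : F} (hc : quadraticChar F c = -1) (x : Option F) : ts (tau c x) = - ts x := by
  have hc0 : c ≠ 0 := by
    rintro rfl
    simp at hc
  rcases x with _ | x
  · simp [tau, ts]
  · by_cases hx : x = 0
    · subst hx; simp [tau, ts]
    · have h1 : c / x ≠ 0 := div_ne_zero hc0 hx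
      simp only [tau, ts, if_neg hx, if_neg h1]
      rw [div_eq_mul_inv, map_mul, hc, chi_inv]
      ring

theorem pB_symm (h4 : Fintype.card F % 4 = 1) {c : F} (hc : quadraticChar F c = -1)
    (x y : Option F) : pB c y x = pB c x y := by
  have hc0 : c ≠ 0 := by
    rintro rfl
    simp at hc
  unfold pB
  have h1 := pc_tau' h4 hc y (tau c x)
  rw [tau_tau hc0, ts_tau hc] at h1
  rw [← pc_symm h4 x (tau c y), h1]
  have hx := ts_sq x
  have hy := ts_sq y
  linear_combination (-(ts x * pc y (tau c x))) * hy

theorem sum_two (h4 : Fintype.card F % 4 = 1) {c : F} (hc : quadraticChar F c = -1) {n : ℕ}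
    (e : Option F ≃ Fin n) (x y : Option F) :
    ∑ z : Tv e (tau c), pc x z * pc y z + ∑ z : Tv e (tau c), pB c x z * pB c y z =
      if x = y then (Fintype.card F : ℤ) else 0 := by
  have hc0 : c ≠ 0 := by
    rintro rfl
    simp at hc
  have hns : ¬ IsSquare c := by
    rw [← quadraticChar_neg_one_iff_not_isSquare]
    exact hc
  rw [← pc_mul h4, sum_split e (tau c) (tau_tau hc0) (tau_ne hns), sum_add_distrib]
  congr 1
  refine sum_congr rfl fun z _ => ?_
  unfold pB
  have hz := ts_sq (z : Option F)
  linear_combination (pc x (tau c z) * pc y (tau c z)) * hz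

theorem sum_com (h4 : Fintype.card F % 4 = 1) {c : F} (hc : quadraticChar F c = -1) {n : ℕ}
    (e : Option F ≃ Fin n) (x y : Option F) (hxy : x ≠ tau c y) :
    ∑ z : Tv e (tau c), pc x z * pB c y z = ∑ z : Tv e (tau c), pB c x z * pc y z := by
  have hc0 : c ≠ 0 := by
    rintro rfl
    simp at hc
  have hns : ¬ IsSquare c := by
    rw [← quadraticChar_neg_one_iff_not_isSquare]
    exact hc
  have h1 := pc_mul h4 x (tau c y)
  rw [if_neg hxy, sum_split e (tau c) (tau_tau hc0) (tau_ne hns)] at h1
  have h2 : ∀ z : Tv e (tau c), pc x z * pc (tau c y) z + pc x (tau c z) * pc (tau c y) (tau c z) =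
      ts y * (pc x z * pB c y z - pB c x z * pc y z) := by
    intro z
    rw [pc_tau' h4 hc, pB_symm h4 hc z y]
    unfold pB
    have hy := ts_sq y
    rw [pc_symm h4 (z : Option F) (tau c y)]
    linear_combination (-(pc x z * pc (z : Option F) (tau c y))) * hy
  rw [sum_congr rfl fun z _ => h2 z, ← mul_sum, sum_sub_distrib] at h1
  rcases ts_cases y with h | h <;> rw [h] at h1 <;> linarith

theorem card_Tv {c : F} (hc : quadraticChar F c = -1) {n : ℕ} (e : Option F ≃ Fin n) :
    2 * (Fintype.card (Tv e (tau c)) : ℤ) = Fintype.card F + 1 := by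
  have hc0 : c ≠ 0 := by
    rintro rfl
    simp at hc
  have hns : ¬ IsSquare c := by
    rw [← quadraticChar_neg_one_iff_not_isSquare]
    exact hc
  have h1 := sum_split e (tau c) (tau_tau hc0) (tau_ne hns) (fun _ => 1)
  simp only [sum_const, card_univ, nsmul_eq_mul, mul_one, Fintype.card_option] at h1
  push_cast at h1
  linarith

/-- the construction from a field and a skew core -/
theorem yam_field (h4 : Fintype.card F % 4 = 1) {v : ℕ} (hv : 2 * v = Fintype.card F + 1)
    {S : Fin v → Fin v → ℤ} (hS : Pool.Agent.Y342.SK.IsCore S) :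
    HasHad (4 * (Fintype.card F + 2)) := by
  obtain ⟨c, hc⟩ := quadraticChar_exists_neg_one (char_ne_two h4)
  have hc0 : c ≠ 0 := by
    rintro rfl
    simp at hc
  have hns : ¬ IsSquare c := by
    rw [← quadraticChar_neg_one_iff_not_isSquare]
    exact hc
  let e : Option F ≃ Fin (Fintype.card (Option F)) := Fintype.equivFin _
  have hcard := card_Tv hc e
  have hcv : Fintype.card (Tv e (tau c)) = v := by
    have : (2 * Fintype.card (Tv e (tau c)) : ℕ) = 2 * v := by
      rw [hv]
      exact_mod_cast hcard
    omega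
  let g : Tv e (tau c) ≃ Fin v := Fintype.equivFinOfCardEq hcv
  have hne : ∀ x y : Tv e (tau c), (x : Option F) ≠ tau c y := by
    intro x y h
    have hx := x.2
    have hy := y.2
    have h' : tau c (x : Option F) = y := by rw [h, tau_tau hc0]
    rw [h'] at hx
    rw [← h] at hy
    exact absurd hx (not_lt.2 hy.le)
  let Y : YData (Tv e (tau c)) :=
    { A := fun x y => pc (x : Option F) y
      B := fun x y => pB c (x : Option F) y
      S := fun x y => S (g x) (g y)
      r := v
      hr := by rw [hcv]
      A0 := fun x => pc_diag _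
      A1 := fun x y hxy => pc_sign _ _ fun h => hxy (Subtype.ext h)
      As := fun x y => pc_symm h4 _ _
      B1 := by
        intro x y
        have h1 := pc_sign _ _ (hne x y)
        unfold pB
        rcases ts_cases (y : Option F) with h | h <;> rcases h1 with h' | h' <;> rw [h, h'] <;>
          norm_num
      Bs := fun x y => pB_symm h4 hc _ _
      S0 := fun x => hS.diag _
      S1 := fun x y hxy => hS.sign _ _ fun h => hxy (g.injective h)
      Sk := fun x y => hS.skew _ _
      Sr := by
        intro x
        rw [Equiv.sum_comp g (fun z => S (g x) z)]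
        exact hS.row _
      AB := by
        intro x y
        rw [sum_two h4 hc e]
        have h1 : (Fintype.card F : ℤ) = 2 * v - 1 := by
          have : ((2 * v : ℕ) : ℤ) = ((Fintype.card F + 1 : ℕ) : ℤ) := by rw [hv]
          push_cast at this
          linarith
        rw [h1]
        by_cases hxy : x = y
        · rw [if_pos hxy, if_pos (congrArg Subtype.val hxy)]
        · rw [if_neg hxy, if_neg fun h => hxy (Subtype.ext h)]
      com := fun x y => sum_com h4 hc e _ _ (hne x y)
      SS := by
        intro x y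
        rw [Equiv.sum_comp g (fun z => S (g x) z * S (g y) z), hS.mul]
        by_cases hxy : x = y
        · rw [if_pos hxy, if_pos (congrArg g hxy)]
        · rw [if_neg hxy, if_neg fun h => hxy (g.injective h)] }
  refine Y.hasHad _ ?_
  show ((4 * (Fintype.card F + 2) : ℕ) : ℤ) = 4 * (2 * (v : ℤ) + 1)
  have : ((2 * v : ℕ) : ℤ) = ((Fintype.card F + 1 : ℕ) : ℤ) := by rw [hv]
  push_cast at this ⊢
  linarith

end paley

open Pool.Agent.W851.Had (tow)

/-- Hadamard matrices of order `4 (q + 2)`, `q` a prime power, `q = - 3` modulo a large power of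
two -/
theorem main_yam : ∃ C : ℕ, 2 ≤ C ∧ ∀ n q t : ℕ, IsPrimePow q → q ≤ tow n →
    2 ^ C ^ (n + 1) ≤ t → 2 ^ t ∣ q + 3 → HasHad (4 * (q + 2)) := by
  obtain ⟨C, hC, h⟩ := Pool.Agent.Y342.SK.main_skew
  refine ⟨C + 1, by omega, fun n q t hq hqn ht hd => ?_⟩
  -- one power of two is lost
  have ht' : 2 ^ C ^ (n + 1) + 2 ≤ t := by
    refine le_trans ?_ ht
    have h1 : C ^ (n + 1) + 1 ≤ (C + 1) ^ (n + 1) := by
      have := pow_add_pow_le (by omega : 0 ≤ C) (by omega : 0 ≤ 1) (n := n + 1) (by omega)
      simpa using this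
    have h2 : 2 ^ (C ^ (n + 1) + 1) ≤ 2 ^ (C + 1) ^ (n + 1) := Nat.pow_le_pow_right (by norm_num) h1
    rw [pow_succ] at h2
    have h3 : 2 ^ 1 ≤ 2 ^ C ^ (n + 1) :=
      Nat.pow_le_pow_right (by norm_num) (Nat.one_le_pow _ _ (by omega))
    omega
  have ht2 : 2 ≤ t := le_trans (Nat.le_add_left 2 _) ht'
  obtain ⟨s, rfl⟩ : ∃ s, t = s + 1 := ⟨t - 1, by omega⟩
  have hs1 : 2 ^ C ^ (n + 1) + 1 ≤ s := by
    have : 2 ^ C ^ (n + 1) + 1 + 1 ≤ s + 1 := ht'
    exact Nat.le_of_add_le_add_right this
  have hs2 : 2 ≤ s := by
    have h3 : 1 ≤ 2 ^ C ^ (n + 1) := Nat.one_le_two_pow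
    exact le_trans (Nat.add_le_add_right h3 1) hs1
  obtain ⟨w, hw⟩ := hd
  have hw0 : 0 < w := by
    rcases Nat.eq_zero_or_pos w with h0 | h0
    · rw [h0] at hw; omega
    · exact h0
  have h4s : 4 ≤ 2 ^ s := by
    calc 4 = 2 ^ 2 := by norm_num
      _ ≤ 2 ^ s := Nat.pow_le_pow_right (by norm_num) hs2
  have e1 : q + 3 = 2 * (2 ^ s * w) := by rw [hw, pow_succ]; ring
  have hwq : w ≤ q := by
    have : 4 * w ≤ 2 ^ s * w := Nat.mul_le_mul_right _ h4s
    omega
  have h8 : 4 ∣ 2 ^ s * w := Dvd.dvd.mul_right (by
    have : 2 ^ 2 ∣ 2 ^ s := pow_dvd_pow 2 hs2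
    simpa using this) w
  obtain ⟨v, hv⟩ : ∃ v, 2 ^ s * w = v + 1 := ⟨2 ^ s * w - 1, by
    have : 0 < 2 ^ s * w := by positivity
    omega⟩
  have hsk := h n w s hw0 (hwq.trans hqn) (le_trans (Nat.le_add_right _ 1) hs1)
  rw [hv] at hsk
  obtain ⟨S, hS⟩ := Pool.Agent.Y342.SK.exists_core hsk
  obtain ⟨p, k, hp, hk, rfl⟩ := hq
  have hpp : p.Prime := hp.nat_prime
  have : Fact p.Prime := ⟨hpp⟩
  have : Fintype (GaloisField p k) := Fintype.ofFinite _
  classical
  have hcF : Fintype.card (GaloisField p k) = p ^ k := by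
    rw [← Nat.card_eq_fintype_card]
    exact GaloisField.card p k (by omega)
  have := yam_field (F := GaloisField p k) (by rw [hcF]; omega) (v := v) (by rw [hcF]; omega) hS
  rwa [hcF] at this

end Pool.Agent.Q163.HD
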