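import Pool.Agent.Y342.SK.Sym

/-!
# Hadamard matrices of order `2 w ^ r (w + 1)` from a symmetric core of order `w`
-/

set_option autoImplicit false

namespace Pool.Agent.Q163.HD

open Matrix Finset
open scoped Kronecker
open Pool.Agent.H108R3.Had (HasHad)
open Pool.Agent.Y342.SK (IsCoreG Sg main_skew core_of sym_core)

/-- two commuting symmetric matrices with disjoint supports -/
structure Two (w r : ℕ) (ι : Type) [Fintype ι] [DecidableEq ι] (A B : Matrix ι ι ℤ) : Prop where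
  ent : ∀ x y, ((A x y = 1 ∨ A x y = -1) ∧ B x y = 0) ∨ (A x y = 0 ∧ (B x y = 1 ∨ B x y = -1))
  As : Aᵀ = A
  Bs : Bᵀ = B
  com : A * B = B * A
  AA : A * A = ((w ^ (r + 1) : ℕ) : ℤ) • (1 : Matrix ι ι ℤ)
  BB : B * B = ((w ^ r : ℕ) : ℤ) • (1 : Matrix ι ι ℤ)
  card : Fintype.card ι = w ^ r * (w + 1)

/-- the conference matrix of a core -/
def kc {κ : Type} (B : κ → κ → ℤ) : Matrix (Option κ) (Option κ) ℤ := Matrix.of fun p q =>
  match p, q with
  | none, none => 0
  | none, some _ => 1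
  | some _, none => 1
  | some x, some y => B x y

section base

variable {κ : Type} [Fintype κ] [DecidableEq κ] {B : κ → κ → ℤ}

theorem kc_symm (h : IsCoreG 1 B) : (kc B)ᵀ = kc B := by
  ext x y
  rcases x with _ | x <;> rcases y with _ | y <;> simp only [kc, transpose_apply, Matrix.of_apply]
  rw [h.sym x y, one_mul]

theorem kc_sq (h : IsCoreG 1 B) : kc B * kc B = (Fintype.card κ : ℤ) • (1 : Matrix (Option κ) (Option κ) ℤ) := by
  have hs : ∀ x y, B y x = B x y := fun x y => by rw [h.sym x y, one_mul]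
  ext x y
  rw [Matrix.mul_apply, Fintype.sum_option, Matrix.smul_apply, Matrix.one_apply, smul_eq_mul]
  rcases x with _ | x <;> rcases y with _ | y
  · simp [kc]
  · simp only [kc, Matrix.of_apply, one_mul, zero_mul, zero_add, reduceCtorEq, if_false, mul_zero]
    rw [sum_congr rfl fun z _ => hs y z]
    exact h.row y
  · simp only [kc, Matrix.of_apply, mul_one, mul_zero, zero_add, reduceCtorEq, if_false]
    exact h.row x
  · simp only [kc, Matrix.of_apply, mul_one, Option.some.injEq]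
    rw [sum_congr rfl fun z _ => by rw [hs y z], h.mul]
    by_cases hxy : x = y
    · rw [if_pos hxy, if_pos hxy]; ring
    · rw [if_neg hxy, if_neg hxy]; ring

theorem two_zero (h : IsCoreG 1 B) : Two (Fintype.card κ) 0 (Option κ) (kc B) 1 where
  ent := by
    intro x y
    rcases x with _ | x <;> rcases y with _ | y
    · right; exact ⟨rfl, Or.inl rfl⟩
    · left; exact ⟨Or.inl rfl, rfl⟩
    · left; exact ⟨Or.inl rfl, rfl⟩
    · by_cases hxy : x = y
      · subst hxy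
        right
        exact ⟨h.diag x, Or.inl (Matrix.one_apply_eq _)⟩
      · left
        exact ⟨h.sign x y hxy, Matrix.one_apply_ne fun h' => hxy (Option.some.inj h')⟩
  As := kc_symm h
  Bs := transpose_one
  com := by rw [mul_one, one_mul]
  AA := by rw [kc_sq h, zero_add, pow_one]
  BB := by simp
  card := by rw [Fintype.card_option]; ring

theorem two_succ (h : IsCoreG 1 B) {r : ℕ} {ι : Type} [Fintype ι] [DecidableEq ι]
    {P Q : Matrix ι ι ℤ} (hT : Two (Fintype.card κ) r ι P Q) :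
    Two (Fintype.card κ) (r + 1) (ι × κ)
      (Q ⊗ₖ (Matrix.of fun _ _ => 1) + P ⊗ₖ (Matrix.of B)) (P ⊗ₖ (1 : Matrix κ κ ℤ)) := by
  have hs : ∀ x y, B y x = B x y := fun x y => by rw [h.sym x y, one_mul]
  obtain ⟨J, hJ⟩ : ∃ J : Matrix κ κ ℤ, J = Matrix.of fun _ _ => 1 := ⟨_, rfl⟩
  obtain ⟨W, hW⟩ : ∃ W : Matrix κ κ ℤ, W = Matrix.of B := ⟨_, rfl⟩
  have hJJ : J * J = (Fintype.card κ : ℤ) • J := by
    ext x y
    simp [hJ, Matrix.mul_apply]
  have hJW : J * W = 0 := by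
    ext x y
    simp only [hJ, hW, Matrix.mul_apply, Matrix.of_apply, one_mul, Matrix.zero_apply]
    rw [sum_congr rfl fun z _ => hs y z]
    exact h.row y
  have hWJ : W * J = 0 := by
    ext x y
    simp only [hJ, hW, Matrix.mul_apply, Matrix.of_apply, mul_one, Matrix.zero_apply]
    exact h.row x
  have hWW : W * W = (Fintype.card κ : ℤ) • (1 : Matrix κ κ ℤ) - J := by
    ext x y
    rw [Matrix.mul_apply, Matrix.sub_apply, Matrix.smul_apply, Matrix.one_apply, smul_eq_mul]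
    simp only [hJ, hW, Matrix.of_apply]
    rw [sum_congr rfl fun z _ => by rw [hs y z], h.mul]
    by_cases hxy : x = y
    · rw [if_pos hxy, if_pos hxy]; ring
    · rw [if_neg hxy, if_neg hxy]; ring
  have hJT : Jᵀ = J := by ext x y; simp [hJ]
  have hWT : Wᵀ = W := by ext x y; rw [hW, transpose_apply]; exact hs x y
  rw [← hJ, ← hW]
  have hPe := hT.AA
  have hQe := hT.BB
  refine ⟨?_, ?_, ?_, ?_, ?_, ?_, ?_⟩
  · rintro ⟨x, i⟩ ⟨y, j⟩
    simp only [Matrix.add_apply, kroneckerMap_apply]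
    have e1 : J i j = 1 := by rw [hJ]; rfl
    have e2 : W i j = B i j := by rw [hW]; rfl
    rw [e1, e2]
    rcases hT.ent x y with ⟨h1, h2⟩ | ⟨h1, h2⟩
    · by_cases hij : i = j
      · subst hij
        right
        rw [h2, h.diag, Matrix.one_apply_eq]
        refine ⟨by ring, ?_⟩
        rw [mul_one]; exact h1
      · left
        rw [h2, Matrix.one_apply_ne hij, mul_zero]
        refine ⟨?_, rfl⟩
        rcases h1 with h1 | h1 <;> rcases h.sign i j hij with h3 | h3 <;> rw [h1, h3] <;> norm_num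
    · left
      rw [h1, zero_mul, zero_mul]
      refine ⟨?_, rfl⟩
      rw [mul_one, add_zero]; exact h2
  · rw [transpose_add, ← kroneckerMap_transpose, ← kroneckerMap_transpose, hT.As, hT.Bs, hJT, hWT]
  · rw [← kroneckerMap_transpose, hT.As, transpose_one]
  · rw [add_mul, mul_add, ← mul_kronecker_mul, ← mul_kronecker_mul, ← mul_kronecker_mul,
      ← mul_kronecker_mul, hT.com, mul_one, mul_one, one_mul, one_mul]
  · rw [add_mul, mul_add, mul_add, ← mul_kronecker_mul, ← mul_kronecker_mul, ← mul_kronecker_mul,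
      ← mul_kronecker_mul, hPe, hQe, hJJ, hJW, hWJ, hWW, kronecker_zero, kronecker_zero]
    ext ⟨x, i⟩ ⟨y, j⟩
    simp only [Matrix.add_apply, Matrix.sub_apply, Matrix.zero_apply, kroneckerMap_apply,
      Matrix.smul_apply, smul_eq_mul, Matrix.one_apply, Prod.mk.injEq]
    by_cases hxy : x = y <;> by_cases hij : i = j <;> simp [hxy, hij] <;> ring
  · rw [← mul_kronecker_mul, hPe, mul_one]
    ext ⟨x, i⟩ ⟨y, j⟩
    simp only [kroneckerMap_apply, Matrix.smul_apply, smul_eq_mul, Matrix.one_apply, Prod.mk.injEq]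
    by_cases hxy : x = y <;> by_cases hij : i = j <;> simp [hxy, hij]
  · rw [Fintype.card_prod, hT.card]
    ring

theorem exists_two (h : IsCoreG 1 B) (r : ℕ) : ∃ (ι : Type) (_ : Fintype ι) (_ : DecidableEq ι)
    (P Q : Matrix ι ι ℤ), Two (Fintype.card κ) r ι P Q := by
  induction r with
  | zero => exact ⟨Option κ, inferInstance, inferInstance, kc B, 1, two_zero h⟩
  | succ r ih =>
    obtain ⟨ι, i1, i2, P, Q, hT⟩ := ih
    exact ⟨ι × κ, inferInstance, inferInstance, _, _, two_succ h hT⟩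

end base

/-- two by two matrices -/
def xX : Matrix (Fin 2) (Fin 2) ℤ := !![1, 1; 1, -1]

def zZ : Matrix (Fin 2) (Fin 2) ℤ := !![1, -1; -1, -1]

theorem Two.had {w r : ℕ} {ι : Type} [Fintype ι] [DecidableEq ι] {A B : Matrix ι ι ℤ}
    (h : Two w r ι A B) : HasHad (2 * (w ^ r * (w + 1))) := by
  have hc : Fintype.card (Fin 2 × ι) = 2 * (w ^ r * (w + 1)) := by
    rw [Fintype.card_prod, Fintype.card_fin, h.card]
  let e : Fin (2 * (w ^ r * (w + 1))) ≃ Fin 2 × ι := (Fintype.equivFinOfCardEq hc).symm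
  have hxs : ∀ i j, xX i j = 1 ∨ xX i j = -1 := by decide
  have hzs : ∀ i j, zZ i j = 1 ∨ zZ i j = -1 := by decide
  have hxx : xX * xXᵀ = (2 : ℤ) • (1 : Matrix (Fin 2) (Fin 2) ℤ) := by decide
  have hzz : zZ * zZᵀ = (2 : ℤ) • (1 : Matrix (Fin 2) (Fin 2) ℤ) := by decide
  have hxz : xX * zZᵀ + zZ * xXᵀ = 0 := by decide
  have hsign : ∀ p q, (xX ⊗ₖ A + zZ ⊗ₖ B) p q = 1 ∨ (xX ⊗ₖ A + zZ ⊗ₖ B) p q = -1 := by
    rintro ⟨i, x⟩ ⟨j, y⟩
    simp only [Matrix.add_apply, kroneckerMap_apply]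
    rcases h.ent x y with ⟨h1, h2⟩ | ⟨h1, h2⟩
    · rw [h2, mul_zero, add_zero]
      rcases hxs i j with h3 | h3 <;> rcases h1 with h1 | h1 <;> rw [h1, h3] <;> norm_num
    · rw [h1, mul_zero, zero_add]
      rcases hzs i j with h3 | h3 <;> rcases h2 with h2 | h2 <;> rw [h2, h3] <;> norm_num
  have hmul : (xX ⊗ₖ A + zZ ⊗ₖ B) * (xX ⊗ₖ A + zZ ⊗ₖ B)ᵀ =
      ((2 * (w ^ r * (w + 1)) : ℕ) : ℤ) • (1 : Matrix (Fin 2 × ι) (Fin 2 × ι) ℤ) := by
    rw [transpose_add, ← kroneckerMap_transpose, ← kroneckerMap_transpose, h.As, h.Bs, add_mul,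
      mul_add, mul_add, ← mul_kronecker_mul, ← mul_kronecker_mul, ← mul_kronecker_mul,
      ← mul_kronecker_mul, hxx, hzz, h.AA, h.BB, h.com]
    have e1 : ∀ a b c d : Matrix (Fin 2 × ι) (Fin 2 × ι) ℤ, a + b + (c + d) = a + d + (b + c) := by
      intro a b c d; abel
    rw [e1, ← add_kronecker, hxz, zero_kronecker, add_zero]
    ext ⟨i, x⟩ ⟨j, y⟩
    simp only [Matrix.add_apply, kroneckerMap_apply, Matrix.smul_apply, smul_eq_mul,
      Matrix.one_apply, Prod.mk.injEq]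
    by_cases hxy : x = y <;> by_cases hij : i = j <;> simp [hxy, hij] <;> ring
  refine ⟨(xX ⊗ₖ A + zZ ⊗ₖ B).submatrix e e, fun i j => hsign _ _, ?_⟩
  rw [transpose_submatrix, submatrix_mul_equiv, hmul]
  ext i j
  rw [Matrix.submatrix_apply, Matrix.smul_apply, Matrix.smul_apply, Matrix.one_apply,
    Matrix.one_apply]
  by_cases hij : i = j
  · rw [if_pos hij, if_pos (congrArg e hij)]
  · rw [if_neg hij, if_neg (fun h => hij (e.injective h))]

/-- Hadamard matrices of order `2 w ^ r (w + 1)`, `w = v ^ 2 ^ (j + 1)` -/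
theorem main_powr : ∃ C : ℕ, 2 ≤ C ∧ ∀ n v t j r : ℕ, v ≤ Pool.Agent.W851.Had.tow n →
    2 ^ C ^ (n + 1) ≤ t → 2 ^ t ∣ v + 1 →
      HasHad (2 * ((v ^ 2 ^ (j + 1)) ^ r * (v ^ 2 ^ (j + 1) + 1))) := by
  obtain ⟨C, hC, h⟩ := main_skew
  refine ⟨C, hC, fun n v t j r hv ht hd => ?_⟩
  obtain ⟨S, hS⟩ := core_of h hv ht hd
  obtain ⟨B, hB⟩ := sym_core hS j
  obtain ⟨ι, i1, i2, P, Q, hT⟩ := exists_two hB r
  have := hT.had
  rwa [Fintype.card_fin] at this

end Pool.Agent.Q163.HD
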