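import Pool.Agent.Y342.SK.Main

/-!
# Symmetric Hadamard matrices of order `2 ^ t * q`, `t ≥ 2 ^ C ^ (1 + log* q)`
-/

set_option autoImplicit false

namespace Pool.Agent.Q163.HD

open Matrix Finset
open scoped Kronecker
open Pool.Agent.Y342.SK
open Pool.Agent.H108R3.Had (IsPU PU PUk evM P7_sum_range)

/-- a symmetric Hadamard matrix -/
structure IsSymH {ι : Type} [Fintype ι] [DecidableEq ι] (K : Matrix ι ι ℤ) : Prop where
  sign : ∀ x y, Sg (K x y)
  symm : Kᵀ = K
  sq : K * K = (Fintype.card ι : ℤ) • (1 : Matrix ι ι ℤ)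

/-- there is a symmetric Hadamard matrix of order `m` -/
def SymH (m : ℕ) : Prop := ∃ K : Matrix (Fin m) (Fin m) ℤ, IsSymH K

theorem IsSymH.sub {ι ι' : Type} [Fintype ι] [DecidableEq ι] [Fintype ι'] [DecidableEq ι']
    {K : Matrix ι ι ℤ} (h : IsSymH K) (e : ι' ≃ ι) : IsSymH (K.submatrix e e) := by
  refine ⟨fun x y => h.sign _ _, ?_, ?_⟩
  · rw [transpose_submatrix, h.symm]
  · rw [submatrix_mul_equiv, h.sq, Fintype.card_congr e]
    ext i j
    rw [Matrix.submatrix_apply, Matrix.smul_apply, Matrix.smul_apply, Matrix.one_apply,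
      Matrix.one_apply]
    by_cases hij : i = j
    · rw [if_pos hij, if_pos (congrArg e hij)]
    · rw [if_neg hij, if_neg (fun h => hij (e.injective h))]

theorem IsSymH.symH {ι : Type} [Fintype ι] [DecidableEq ι] {K : Matrix ι ι ℤ} (h : IsSymH K)
    {m : ℕ} (hm : Fintype.card ι = m) : SymH m :=
  ⟨_, h.sub (Fintype.equivFinOfCardEq hm).symm⟩

theorem SymH.on {m : ℕ} (h : SymH m) {ι : Type} [Fintype ι] [DecidableEq ι]
    (hm : Fintype.card ι = m) : ∃ K : Matrix ι ι ℤ, IsSymH K := by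
  obtain ⟨K, h⟩ := h
  exact ⟨_, h.sub (Fintype.equivFinOfCardEq hm)⟩

/-- doubling -/
theorem SymH.double {m : ℕ} (h : SymH m) : SymH (2 * m) := by
  obtain ⟨K, h⟩ := h
  have key : IsSymH (hh ⊗ₖ K) := by
    refine ⟨?_, ?_, ?_⟩
    · rintro ⟨i, x⟩ ⟨j, y⟩
      rw [kroneckerMap_apply]
      exact (hh_sg _ _).mul (h.sign _ _)
    · rw [← kroneckerMap_transpose, hhT, h.symm]
    · rw [← mul_kronecker_mul, h.sq, hh_hh]
      have e1 : (2 : Matrix (Fin 2) (Fin 2) ℤ) = (2 : ℤ) • 1 := by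
        ext i j
        fin_cases i <;> fin_cases j <;> rfl
      ext ⟨i, x⟩ ⟨j, y⟩
      simp only [kroneckerMap_apply, Matrix.smul_apply, Matrix.one_apply, Fintype.card_prod,
        Fintype.card_fin, smul_eq_mul, Prod.mk.injEq]
      by_cases h1 : i = j <;> by_cases h2 : x = y <;> simp [h1, h2]
  exact key.symH (by rw [Fintype.card_prod, Fintype.card_fin, Fintype.card_fin])

theorem SymH.pow {m : ℕ} (h : SymH m) : ∀ t : ℕ, SymH (2 ^ t * m)
  | 0 => by simpa using h
  | t + 1 => by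
    have := (h.pow t).double
    rwa [← mul_assoc, ← pow_succ'] at this

section asm

variable {ι κ : Type} [Fintype ι] [DecidableEq ι] [Fintype κ] [DecidableEq κ] (G : Gad ι κ)
variable {q : ℕ} [NeZero q] (C : κ → Matrix (ZMod q) (ZMod q) ℤ)

/-- the matrix -/
def Sm : Matrix (ι × ZMod q) (ι × ZMod q) ℤ :=
  G.E ⊗ₖ (1 : Matrix (ZMod q) (ZMod q) ℤ) + (Qm G C + (Qm G C)ᵀ)

theorem Sm_sq (hC : ∀ a b, C a * C b = C b * C a) (hC' : ∀ a b, C a * (C b)ᵀ = (C b)ᵀ * C a)
    {s : ℤ} (hs : ∑ a, C a * (C a)ᵀ = s • (1 : Matrix (ZMod q) (ZMod q) ℤ)) :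
    Sm G C * Sm G C = ((Fintype.card ι : ℤ) + G.c * s) •
      (1 : Matrix (ι × ZMod q) (ι × ZMod q) ℤ) := by
  have h1 := Qm_sq G C hC
  have h2 := Qm_QmT G C hC' hs
  have h3 : (Qm G C)ᵀ * (Qm G C)ᵀ = 0 := by rw [← transpose_mul, h1, transpose_zero]
  have h4 : Y342.SK.Rel (-1) (G.E ⊗ₖ (1 : Matrix (ZMod q) (ZMod q) ℤ)) (Qm G C) := by
    unfold Y342.SK.Rel Qm
    rw [Finset.mul_sum, Finset.sum_mul, Finset.smul_sum]
    refine Finset.sum_congr rfl fun a _ => ?_
    have := (G.EA a).kron (Rel.one_left (C a))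
    unfold Y342.SK.Rel at this
    simpa using this
  have h5 : Y342.SK.Rel (-1) (G.E ⊗ₖ (1 : Matrix (ZMod q) (ZMod q) ℤ)) (Qm G C)ᵀ := by
    have := h4.transpose (by norm_num)
    unfold Y342.SK.Rel at this ⊢
    rw [← kroneckerMap_transpose, transpose_one, G.ET] at this
    exact this
  have h6 : Y342.SK.Rel (-1) (G.E ⊗ₖ (1 : Matrix (ZMod q) (ZMod q) ℤ)) (Qm G C + (Qm G C)ᵀ) := by
    unfold Y342.SK.Rel at *
    rw [mul_add, add_mul, h4, h5, smul_add]
  unfold Sm
  rw [sq_add h6, ← mul_kronecker_mul, G.EE, one_mul, smul_kronecker, one_kronecker_one]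
  have h7 : (Qm G C + (Qm G C)ᵀ) * (Qm G C + (Qm G C)ᵀ) =
      (Qm G C * (Qm G C)ᵀ + (Qm G C)ᵀ * Qm G C) := by
    rw [add_mul, mul_add, mul_add, h1, h3]
    abel
  rw [h7, h2, ← add_smul]

include G in
/-- gadgets and para-unitary matrices give symmetric Hadamard matrices -/
theorem symm_of (κ' : Type) [Fintype κ'] [DecidableEq κ'] (hκ : Fintype.card κ = Fintype.card κ')
    [Nonempty κ'] {S : ℕ} (h : PU κ' S) : SymH (Fintype.card ι * (2 * S + 1)) := by
  obtain ⟨W, hW⟩ := h
  obtain ⟨i₀⟩ := (inferInstance : Nonempty κ')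
  let e : κ ≃ κ' := Fintype.equivOfCardEq hκ
  obtain ⟨q, hq⟩ : ∃ q, q = 2 * S + 1 := ⟨_, rfl⟩
  have : NeZero q := ⟨by omega⟩
  let f : κ → ZMod q → ℤ := fun a => fS q S (fun n => W n i₀ (e a))
  let C : κ → Matrix (ZMod q) (ZMod q) ℤ := fun a => circulant (f a)
  have hT : ∀ a, (C a)ᵀ = circulant (fun d => f a (-d)) := fun a => transpose_circulant _
  have hC : ∀ a b, C a * C b = C b * C a := fun a b => circulant_mul_comm _ _
  have hC' : ∀ a b, C a * (C b)ᵀ = (C b)ᵀ * C a := fun a b => by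
    rw [hT]; exact circulant_mul_comm _ _
  have hs : ∑ a, C a * (C a)ᵀ = ((Fintype.card κ * S : ℕ) : ℤ) • (1 : Matrix (ZMod q) (ZMod q) ℤ) := by
    ext i j
    rw [Matrix.sum_apply]
    have h1 : ∀ a, (C a * (C a)ᵀ) i j = ∑ n ∈ range S, ∑ m ∈ range S,
        (W n i₀ (e a) * W m i₀ (e a)) * (if (n : ZMod q) - m = i - j then 1 else 0) := by
      intro a
      rw [Matrix.mul_apply, ← corr (fun n => W n i₀ (e a)) i j]
      rfl
    rw [Finset.sum_congr rfl fun a _ => h1 a]
    rw [Equiv.sum_comp e (fun a => ∑ n ∈ range S, ∑ m ∈ range S,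
        (W n i₀ a * W m i₀ a) * (if (n : ZMod q) - m = i - j then 1 else 0)), entry hW, hκ,
      Matrix.smul_apply, Matrix.one_apply, smul_eq_mul]
    by_cases hij : i = j
    · rw [if_pos (by rw [hij, sub_self]), if_pos hij, mul_one]
    · rw [if_neg (fun h => hij (sub_eq_zero.1 h)), if_neg hij, mul_zero]
  have hsq := Sm_sq G C hC hC' hs
  have key : IsSymH (Sm G C) := by
    have hent : ∀ (x y : ι) (i j : ZMod q), Sm G C (x, i) (y, j) =
        (if i = j then G.E x y else 0) + ((∑ a, G.A a x y * f a (i - j)) +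
          ∑ a, G.A a y x * f a (j - i)) := by
      intro x y i j
      simp only [Sm, Qm, Matrix.add_apply, transpose_apply, Matrix.sum_apply,
        kroneckerMap_apply, Matrix.one_apply, mul_ite, mul_one, mul_zero]
      rfl
    have hf0 : ∀ a, f a 0 = 0 := fun a => fS_high hq _ _ (Or.inl ZMod.val_zero)
    refine ⟨?_, ?_, ?_⟩
    · rintro ⟨x, i⟩ ⟨y, j⟩
      rw [hent]
      by_cases hij : i = j
      · subst hij
        rw [if_pos rfl, sub_self]
        simp only [hf0, mul_zero, Finset.sum_const_zero, add_zero]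
        exact G.Es _ _
      · rw [if_neg hij, zero_add]
        have hd : (i - j).val ≠ 0 := by
          rw [Ne, ZMod.val_eq_zero, sub_eq_zero]
          exact hij
        have hlt := ZMod.val_lt (i - j)
        have hneg : (j - i).val = q - (i - j).val := by
          have : j - i = -(i - j) := by ring
          rw [this, ZMod.neg_val, if_neg (sub_ne_zero.2 hij)]
        by_cases hle : (i - j).val ≤ S
        · have h1 : ∀ a, f a (j - i) = 0 := fun a => fS_high hq _ _ (Or.inr (by omega))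
          simp only [h1, mul_zero, Finset.sum_const_zero, add_zero]
          obtain ⟨a, ha, hb⟩ := G.sup x y
          rw [Finset.sum_eq_single a]
          · refine ha.mul ?_
            have : f a (i - j) = W ((i - j).val - 1) i₀ (e a) := fS_low hq _ _ (by omega) hle
            rw [this]
            exact hW.sign _ (by omega) _ _
          · intro b _ hba
            rw [hb b hba, zero_mul]
          · intro h; exact absurd (mem_univ _) h
        · have h1 : ∀ a, f a (i - j) = 0 := fun a => fS_high hq _ _ (Or.inr (by omega))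
          simp only [h1, mul_zero, Finset.sum_const_zero, zero_add]
          obtain ⟨a, ha, hb⟩ := G.sup y x
          rw [Finset.sum_eq_single a]
          · refine ha.mul ?_
            have : f a (j - i) = W ((j - i).val - 1) i₀ (e a) :=
              fS_low hq _ _ (by omega) (by omega)
            rw [this]
            exact hW.sign _ (by omega) _ _
          · intro b _ hba
            rw [hb b hba, zero_mul]
          · intro h; exact absurd (mem_univ _) h
    · unfold Sm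
      rw [transpose_add, transpose_add, transpose_transpose, ← kroneckerMap_transpose,
        transpose_one, G.ET]
      congr 1
      exact add_comm _ _
    · rw [hsq, Fintype.card_prod, ZMod.card]
      congr 1
      have := G.hc
      have e2 : G.c * ((Fintype.card κ * S : ℕ) : ℤ) = 2 * (Fintype.card ι : ℤ) * S := by
        push_cast
        linear_combination (S : ℤ) * this
      rw [e2, hq]
      push_cast
      ring
  exact key.symH (by rw [Fintype.card_prod, ZMod.card, hq])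

end asm

/-- symmetric Hadamard matrices of order `2 ^ t * (2 S + 1)`, `t ≥ 5 * 2 ^ k - 1`, from `PUk k S` -/
theorem symm_of_PUk {k S : ℕ} (h : PUk k S) {t : ℕ} (ht : 5 * 2 ^ k - 1 ≤ t) :
    SymH (2 ^ t * (2 * S + 1)) := by
  obtain ⟨ι, κ, i1, i2, i3, i4, h1, h2, ⟨G⟩⟩ := exists_gad k
  have h3 := symm_of G (Fin (2 ^ k)) (by rw [h2, Fintype.card_fin]) h
  have h4 := h3.pow (t - (5 * 2 ^ k - 1))
  rw [h1, ← mul_assoc, ← pow_add, Nat.sub_add_cancel ht] at h4
  exact h4

open Pool.Agent.W851.Had (tow) in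
/-- a symmetric Hadamard matrix of order `2 ^ t * q` for all `t ≥ 2 ^ (C ^ (1 + log* q))` -/
theorem main_symm : ∃ C : ℕ, 2 ≤ C ∧ ∀ n q t : ℕ, 0 < q → q ≤ tow n → 2 ^ C ^ (n + 1) ≤ t →
    SymH (2 ^ t * q) := by
  obtain ⟨C, hC, h⟩ := Pool.Agent.W851.Had.main_pu
  refine ⟨C + 3, by omega, fun n q t hq hqn ht => ?_⟩
  obtain ⟨a, m, hm, rfl⟩ := Nat.exists_eq_two_pow_mul_odd (n := q) hq.ne'
  obtain ⟨S, rfl⟩ := hm
  have h1 : PUk (C ^ (n + 1)) S := by
    refine h n S _ ?_ le_rfl
    refine le_trans ?_ hqn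
    have : 1 ≤ 2 ^ a := Nat.one_le_two_pow
    nlinarith
  have h2 : C ^ (n + 1) + 3 ≤ (C + 3) ^ (n + 1) := by
    have h3 : C ^ (n + 1) + 3 ^ (n + 1) ≤ (C + 3) ^ (n + 1) := by
      have := pow_add_pow_le (by omega : 0 ≤ C) (by omega : 0 ≤ 3) (n := n + 1) (by omega)
      exact this
    have h4 : 3 ≤ 3 ^ (n + 1) := by
      calc 3 = 3 ^ 1 := by norm_num
        _ ≤ 3 ^ (n + 1) := Nat.pow_le_pow_right (by norm_num) (by omega)
    omega
  have h5 : 5 * 2 ^ C ^ (n + 1) - 1 ≤ t := by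
    have h6 : 2 ^ (C ^ (n + 1) + 3) ≤ 2 ^ (C + 3) ^ (n + 1) := Nat.pow_le_pow_right (by norm_num) h2
    rw [pow_add] at h6
    have h7 : 2 ^ C ^ (n + 1) * 2 ^ 3 ≤ t := h6.trans ht
    omega
  have h8 := symm_of_PUk h1 (t := t + a) (by omega)
  rwa [pow_add, mul_assoc] at h8

end Pool.Agent.Q163.HD
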