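import Mathlib
import Pool.Agent.Q163.HD.GS
import Pool.Agent.Q163.HD.SymH
import Pool.Agent.Q163.HD.Pal

/-!
# Matrices of Williamson type of prime power order
-/

set_option autoImplicit false

namespace Pool.Agent.Q163.HD

open Finset Matrix
open Pool.Agent.H108R3.Had (HasHad)
open Pool.Agent.TH432.Had (sum_chi chi_neg chi_neg_one chi_sq char_ne_two)

section bd

variable {T : Type} [Fintype T] [DecidableEq T]

/-- bordered matrix -/
def bd (c : ℤ) (X : Matrix T T ℤ) : Matrix (Option T) (Option T) ℤ := Matrix.of fun p q =>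
  match p, q with
  | none, none => c
  | none, some _ => 1
  | some _, none => 1
  | some x, some y => X x y

theorem wil_bd (c r : Fin 4 → ℤ) (X : Fin 4 → Matrix T T ℤ) (hc : ∀ k, c k = 1 ∨ c k = -1)
    (hX : ∀ k x y, X k x y = 1 ∨ X k x y = -1) (hr : ∀ k x, ∑ y, X k x y = r k)
    (hcr : ∀ k, c k - r k = 1) (hs : ∑ k, (c k + r k) = 0)
    (ami : ∀ k l, X k * (X l)ᵀ = X l * (X k)ᵀ)
    (sq : ∀ x y, ∑ k, (X k * (X k)ᵀ) x y = 4 * (if x = y then (Fintype.card T : ℤ) + 1 else 0) - 4) :
    Wil (fun k => bd (c k) (X k)) := by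
  have hr' : ∀ k x, ∑ y, (X k)ᵀ y x = r k := fun k x => hr k x
  refine ⟨?_, ?_, ?_⟩
  · intro k x y
    rcases x with _ | x <;> rcases y with _ | y
    · exact hc k
    · left; rfl
    · left; rfl
    · exact hX k x y
  · intro k l
    ext x y
    rw [Matrix.mul_apply, Matrix.mul_apply, Fintype.sum_option, Fintype.sum_option]
    have h1 := hcr k
    have h2 := hcr l
    rcases x with _ | x <;> rcases y with _ | y
    · simp only [bd, transpose_apply, Matrix.of_apply]
      ring
    · simp only [bd, transpose_apply, Matrix.of_apply, one_mul, mul_one, hr]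
      linarith
    · simp only [bd, transpose_apply, Matrix.of_apply, one_mul, mul_one, hr]
      linarith
    · have h := congrFun (congrFun (ami k l) x) y
      rw [Matrix.mul_apply, Matrix.mul_apply] at h
      simp only [bd, transpose_apply, Matrix.of_apply] at h ⊢
      rw [h]
  · ext x y
    rw [Matrix.sum_apply, Matrix.smul_apply, Matrix.one_apply, smul_eq_mul]
    rcases x with _ | x <;> rcases y with _ | y
    · have h1 : ∀ k, (bd (c k) (X k) * (bd (c k) (X k))ᵀ) none none = 1 + (Fintype.card T : ℤ) := by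
        intro k
        rw [Matrix.mul_apply, Fintype.sum_option]
        simp only [bd, transpose_apply, Matrix.of_apply]
        rcases hc k with h | h <;> rw [h] <;> simp
      rw [sum_congr rfl fun k _ => h1 k]
      simp
      ring
    · have h1 : ∀ k, (bd (c k) (X k) * (bd (c k) (X k))ᵀ) none (some y) = c k + r k := by
        intro k
        rw [Matrix.mul_apply, Fintype.sum_option]
        simp only [bd, transpose_apply, Matrix.of_apply, one_mul, mul_one, hr]
      rw [sum_congr rfl fun k _ => h1 k, hs]
      simp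
    · have h1 : ∀ k, (bd (c k) (X k) * (bd (c k) (X k))ᵀ) (some x) none = c k + r k := by
        intro k
        rw [Matrix.mul_apply, Fintype.sum_option]
        simp only [bd, transpose_apply, Matrix.of_apply, one_mul, mul_one, hr]
      rw [sum_congr rfl fun k _ => h1 k, hs]
      simp
    · have h1 : ∀ k, (bd (c k) (X k) * (bd (c k) (X k))ᵀ) (some x) (some y) =
          1 + (X k * (X k)ᵀ) x y := by
        intro k
        rw [Matrix.mul_apply, Matrix.mul_apply, Fintype.sum_option]
        simp only [bd, transpose_apply, Matrix.of_apply, one_mul]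
      rw [sum_congr rfl fun k _ => h1 k, sum_add_distrib, sq]
      by_cases hxy : x = y
      · subst hxy
        simp
      · rw [if_neg hxy, if_neg (fun h => hxy (Option.some.inj h))]
        simp

end bd

section mm

variable {S : Type} [Fintype S] [DecidableEq S]

/-- signs -/
def bs (b : Bool) : ℤ := if b then 1 else -1

theorem bs_sq (b : Bool) : bs b * bs b = 1 := by cases b <;> simp [bs]

/-- two by two blocks -/
def mm (P Q : Matrix S S ℤ) : Matrix (Bool × S) (Bool × S) ℤ :=
  Matrix.of fun p q => P p.2 q.2 + bs p.1 * bs q.1 * Q p.2 q.2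

omit [Fintype S] [DecidableEq S] in
theorem mmT (P Q : Matrix S S ℤ) : (mm P Q)ᵀ = mm Pᵀ Qᵀ := by
  ext ⟨b, s⟩ ⟨b', s'⟩
  simp only [mm, transpose_apply, Matrix.of_apply]
  ring

omit [DecidableEq S] in
theorem mm_mul (P Q P' Q' : Matrix S S ℤ) (b b' : Bool) (s s' : S) :
    (mm P Q * mm P' Q') (b, s) (b', s') =
      2 * (P * P') s s' + 2 * (bs b * bs b') * (Q * Q') s s' := by
  rw [Matrix.mul_apply, Fintype.sum_prod_type, Fintype.sum_bool, ← sum_add_distrib,
    Matrix.mul_apply, Matrix.mul_apply, mul_sum, mul_sum, ← sum_add_distrib]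
  refine sum_congr rfl fun x _ => ?_
  simp only [mm, Matrix.of_apply]
  cases b <;> cases b' <;> simp [bs] <;> ring

omit [DecidableEq S] in
theorem mm_row (P Q : Matrix S S ℤ) (p : Bool × S) :
    ∑ q, mm P Q p q = 2 * ∑ s', P p.2 s' := by
  rw [Fintype.sum_prod_type, Fintype.sum_bool, ← sum_add_distrib, mul_sum]
  refine sum_congr rfl fun x _ => ?_
  simp only [mm, Matrix.of_apply, bs]
  simp
  ring

end mm

section field

variable {F : Type} [Field F] [Fintype F] [DecidableEq F]

/-- nonzero squares -/
abbrev Sq (F : Type) [Field F] [Fintype F] [DecidableEq F] : Type := {x : F // quadraticChar F x = 1}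

theorem sum_sq {g : F} (hg : quadraticChar F g = -1) (f : F → ℤ) :
    ∑ x, f x = f 0 + ∑ s : Sq F, (f s + f (g / s)) := by
  have hg0 : g ≠ 0 := by
    rintro rfl
    simp at hg
  have h1 : ∑ s : Sq F, (f s + f (g / s)) =
      ∑ x ∈ univ.filter (fun x => quadraticChar F x = 1), (f x + f (g / x)) := by
    symm
    apply Finset.sum_subtype
    intro x
    simp
  have h2 : ∑ x ∈ univ.filter (fun x => quadraticChar F x = 1), f (g / x) =
      ∑ x ∈ univ.filter (fun x => quadraticChar F x = -1), f x := by
    refine Finset.sum_nbij' (fun x => g / x) (fun x => g / x) ?_ ?_ ?_ ?_ ?_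
    · intro x hx
      simp only [mem_filter, mem_univ, true_and] at hx ⊢
      rw [div_eq_mul_inv, map_mul, hg, chi_inv, hx]
      norm_num
    · intro x hx
      simp only [mem_filter, mem_univ, true_and] at hx ⊢
      rw [div_eq_mul_inv, map_mul, hg, chi_inv, hx]
      norm_num
    · intro x hx
      simp only [mem_filter, mem_univ, true_and] at hx ⊢
      have hx0 : x ≠ 0 := by rintro rfl; simp at hx
      field_simp
    · intro x hx
      simp only [mem_filter, mem_univ, true_and] at hx ⊢
      have hx0 : x ≠ 0 := by rintro rfl; simp at hx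
      field_simp
    · intro x _
      rfl
  rw [h1, sum_add_distrib, h2, ← Finset.sum_filter_add_sum_filter_not univ
    (fun x => quadraticChar F x = 1)]
  have h3 : univ.filter (fun x : F => ¬ quadraticChar F x = 1) =
      insert 0 (univ.filter (fun x : F => quadraticChar F x = -1)) := by
    ext x
    simp only [mem_filter, mem_univ, true_and, mem_insert]
    constructor
    · intro h
      by_cases hx : x = 0
      · exact Or.inl hx
      · exact Or.inr ((quadraticChar_dichotomy hx).resolve_left h)
    · rintro (rfl | h)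
      · simp
      · rw [h]; norm_num
  rw [h3, sum_insert (by simp)]
  ring

/-- first block -/
noncomputable def wA : Matrix (Sq F) (Sq F) ℤ := Matrix.of fun s s' => quadraticChar F ((s : F) - s')

/-- second block -/
noncomputable def wB (g : F) : Matrix (Sq F) (Sq F) ℤ :=
  Matrix.of fun s s' => quadraticChar F ((s : F) * s' - g)

theorem Sq.ne (s : Sq F) : (s : F) ≠ 0 := by
  intro h
  have := s.2
  rw [h] at this
  simp at this

theorem wB_eq (g : F) (s s' : Sq F) : wB g s s' = quadraticChar F ((s : F) - g / s') := by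
  have h1 : (s : F) * s' - g = ((s : F) - g / s') * s' := by
    have := s'.ne
    field_simp
  simp only [wB, Matrix.of_apply]
  rw [h1, map_mul, s'.2, mul_one]

theorem card_sq {g : F} (hg : quadraticChar F g = -1) :
    (Fintype.card F : ℤ) = 1 + 2 * Fintype.card (Sq F) := by
  have := sum_sq hg (fun _ => 1)
  simp at this
  rw [this]
  ring

theorem wA_symm (h4 : Fintype.card F % 4 = 1) : (wA : Matrix (Sq F) (Sq F) ℤ)ᵀ = wA := by
  ext s s'
  simp only [wA, transpose_apply, Matrix.of_apply]
  rw [← chi_neg h4, neg_sub]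

theorem wB_symm (g : F) : (wB g)ᵀ = wB g := by
  ext s s'
  simp only [wB, transpose_apply, Matrix.of_apply]
  rw [mul_comm]

theorem wAB_sq (h4 : Fintype.card F % 4 = 1) {g : F} (hg : quadraticChar F g = -1) (s s' : Sq F) :
    (wA * wA : Matrix (Sq F) (Sq F) ℤ) s s' + (wB g * wB g) s s' =
      (if s = s' then (Fintype.card F : ℤ) else 0) - 2 := by
  rw [Matrix.mul_apply, Matrix.mul_apply, ← sum_add_distrib]
  have h1 := sum_sq hg (fun z => quadraticChar F ((s : F) - z) * quadraticChar F ((s' : F) - z))
  rw [sum_chi h4] at h1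
  simp only [sub_zero, s.2, s'.2, mul_one] at h1
  have h2 : ∑ x, (wA s x * wA x s' + wB g s x * wB g x s') =
      ∑ x : Sq F, (quadraticChar F ((s : F) - x) * quadraticChar F ((s' : F) - x) +
        quadraticChar F ((s : F) - g / x) * quadraticChar F ((s' : F) - g / x)) := by
    refine sum_congr rfl fun x _ => ?_
    have e1 : wB g x s' = wB g s' x := congrFun (congrFun (wB_symm g) s') x
    have e2 : wA x s' = wA s' x := congrFun (congrFun (wA_symm h4) s') x
    rw [e1, e2, wB_eq, wB_eq]
    rfl
  rw [h2]
  by_cases h : s = s'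
  · rw [if_pos h]
    rw [if_pos (congrArg Subtype.val h)] at h1
    linarith
  · rw [if_neg h]
    rw [if_neg (fun h' => h (Subtype.ext h'))] at h1
    linarith

theorem rows (h4 : Fintype.card F % 4 = 1) {g : F} (hg : quadraticChar F g = -1) (s : Sq F) :
    ∑ x, (wA : Matrix (Sq F) (Sq F) ℤ) s x = -1 ∧ ∑ x, wB g s x = 0 := by
  have h1 := sum_sq hg (fun z => quadraticChar F ((s : F) - z))
  have h2 := sum_sq hg (fun z => quadraticChar F (0 - z) * quadraticChar F ((s : F) - z))
  rw [sum_shift h4] at h1
  rw [sum_chi h4, if_neg (Ne.symm s.ne)] at h2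
  simp only [sub_zero, s.2, quadraticChar_zero, zero_mul, zero_add] at h1 h2
  have e1 : ∀ x : Sq F, quadraticChar F (0 - (x : F)) * quadraticChar F ((s : F) - x) +
      quadraticChar F (0 - g / (x : F)) * quadraticChar F ((s : F) - g / x) =
      quadraticChar F ((s : F) - x) - quadraticChar F ((s : F) - g / x) := by
    intro x
    rw [zero_sub, chi_neg h4, x.2, zero_sub, chi_neg h4, div_eq_mul_inv, map_mul, hg, chi_inv, x.2]
    ring
  rw [sum_congr rfl fun x _ => e1 x, sum_sub_distrib] at h2
  rw [sum_add_distrib] at h1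
  have e2 : ∑ x, wB g s x = ∑ x : Sq F, quadraticChar F ((s : F) - g / x) :=
    sum_congr rfl fun x _ => wB_eq g s x
  have e3 : ∑ x, (wA : Matrix (Sq F) (Sq F) ℤ) s x = ∑ x : Sq F, quadraticChar F ((s : F) - x) := rfl
  rw [e2, e3]
  constructor <;> linarith

theorem wAB_comm (h4 : Fintype.card F % 4 = 1) (g : F) :
    (wA : Matrix (Sq F) (Sq F) ℤ) * wB g = wB g * wA := by
  ext s s'
  rw [Matrix.mul_apply, Matrix.mul_apply]
  have hmul : ∀ y : Sq F, quadraticChar F ((y : F) * (s / s')) = 1 := by
    intro y
    rw [div_eq_mul_inv, map_mul, map_mul, chi_inv, y.2, s.2, s'.2]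
    norm_num
  have hmul' : ∀ y : Sq F, quadraticChar F ((y : F) * (s' / s)) = 1 := by
    intro y
    rw [div_eq_mul_inv, map_mul, map_mul, chi_inv, y.2, s.2, s'.2]
    norm_num
  have hs := s.ne
  have hs' := s'.ne
  let e : Sq F ≃ Sq F :=
    { toFun := fun y => ⟨(y : F) * (s / s'), hmul y⟩
      invFun := fun y => ⟨(y : F) * (s' / s), hmul' y⟩
      left_inv := fun y => by
        apply Subtype.ext
        change (y : F) * (s / s') * (s' / s) = y
        field_simp
      right_inv := fun y => by
        apply Subtype.ext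
        change (y : F) * (s' / s) * (s / s') = y
        field_simp }
  rw [← Equiv.sum_comp e]
  refine sum_congr rfl fun y _ => ?_
  change quadraticChar F ((s : F) - (y : F) * (s / s')) * quadraticChar F ((y : F) * (s / s') * s' - g) =
    quadraticChar F ((s : F) * y - g) * quadraticChar F ((y : F) - s')
  have e1 : (s : F) - (y : F) * (s / s') = (s * (s' : F)⁻¹) * (s' - y) := by
    field_simp
  have e2 : (y : F) * (s / s') * s' - g = s * y - g := by
    field_simp
  rw [e1, e2, map_mul, map_mul, chi_inv, s.2, s'.2, ← chi_neg h4 ((y : F) - s'), neg_sub]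
  ring

theorem exists_nonsq (h4 : Fintype.card F % 4 = 1) : ∃ g : F, quadraticChar F g = -1 :=
  quadraticChar_exists_neg_one (char_ne_two h4)

/-- Williamson type matrices of order `q` from a symmetric Hadamard matrix of order `(q - 1) / 2` -/
theorem wil_field (h4 : Fintype.card F % 4 = 1) {h : ℕ} (hq : Fintype.card F = 2 * h + 1)
    (hH : SymH h) : ∃ W : Fin 4 → Matrix (Option (Bool × Sq F)) (Option (Bool × Sq F)) ℤ, Wil W := by
  obtain ⟨g, hg⟩ := exists_nonsq h4
  have hg0 : g ≠ 0 := by
    rintro rfl
    simp at hg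
  have hcard := card_sq hg
  have hS : Fintype.card (Sq F) = h := by
    have : ((Fintype.card F : ℕ) : ℤ) = 2 * h + 1 := by rw [hq]; push_cast; ring
    omega
  obtain ⟨H, hH⟩ := hH.on hS
  have hHs : Hᵀ = H := hH.symm
  have hA := wA_symm h4
  have hB := wB_symm g
  have hAB := wAB_comm h4 g
  let X : Fin 4 → Matrix (Bool × Sq F) (Bool × Sq F) ℤ := fun k =>
    match k with
    | 0 => mm wA 1
    | 1 => mm (wB g) 0
    | 2 => mm 0 H
    | 3 => mm 0 H
  let c : Fin 4 → ℤ := fun k =>
    match k with
    | 0 => -1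
    | 1 => 1
    | 2 => 1
    | 3 => 1
  let r : Fin 4 → ℤ := fun k =>
    match k with
    | 0 => -2
    | 1 => 0
    | 2 => 0
    | 3 => 0
  have hHq : H * H = ((Fintype.card (Sq F) : ℕ) : ℤ) • (1 : Matrix (Sq F) (Sq F) ℤ) := hH.sq
  refine ⟨fun k => bd (c k) (X k), wil_bd c r X ?_ ?_ ?_ ?_ ?_ ?_ ?_⟩
  · intro k
    fin_cases k
    · right; rfl
    · left; rfl
    · left; rfl
    · left; rfl
  · rintro k ⟨b, s⟩ ⟨b', s'⟩
    have hbs : bs b * bs b' = 1 ∨ bs b * bs b' = -1 := by
      cases b <;> cases b' <;> simp [bs]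
    have hHc : mm 0 H (b, s) (b', s') = 1 ∨ mm 0 H (b, s) (b', s') = -1 := by
      simp only [mm, Matrix.of_apply, Matrix.zero_apply, zero_add]
      rcases hbs with h1 | h1 <;> rcases hH.sign s s' with h2 | h2 <;> rw [h1, h2] <;> norm_num
    fin_cases k
    · change mm wA 1 (b, s) (b', s') = 1 ∨ mm wA 1 (b, s) (b', s') = -1
      simp only [mm, wA, Matrix.of_apply]
      by_cases hss : s = s'
      · subst hss
        rw [sub_self, Matrix.one_apply_eq, quadraticChar_zero, zero_add, mul_one]
        exact hbs
      · rw [Matrix.one_apply_ne hss, mul_zero, add_zero]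
        exact quadraticChar_dichotomy (sub_ne_zero.2 fun h' => hss (Subtype.ext h'))
    · change mm (wB g) 0 (b, s) (b', s') = 1 ∨ mm (wB g) 0 (b, s) (b', s') = -1
      simp only [mm, wB, Matrix.of_apply, Matrix.zero_apply, mul_zero, add_zero]
      refine quadraticChar_dichotomy (sub_ne_zero.2 fun h' => ?_)
      have : quadraticChar F ((s : F) * s') = 1 := by rw [map_mul, s.2, s'.2]; norm_num
      rw [h', hg] at this
      norm_num at this
    · exact hHc
    · exact hHc
  · rintro k p
    have hz : ∑ q, mm 0 H p q = 0 := by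
      rw [mm_row]
      simp
    fin_cases k
    · change ∑ q, mm wA 1 p q = -2
      rw [mm_row, (rows h4 hg _).1]
      norm_num
    · change ∑ q, mm (wB g) 0 p q = 0
      rw [mm_row, (rows h4 hg _).2]
      norm_num
    · exact hz
    · exact hz
  · intro k
    fin_cases k <;> norm_num [c, r]
  · rw [Fin.sum_univ_four]
    norm_num [c, r]
  · intro k l
    ext ⟨b, s⟩ ⟨b', s'⟩
    fin_cases k <;> fin_cases l <;>
      simp only [Fin.zero_eta, Fin.mk_one, Fin.reduceFinMk, Fin.isValue, X, mmT, mm_mul, hA, hB, hHs, hAB,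
        transpose_zero, transpose_one, mul_zero, zero_mul, mul_one, one_mul]
  · rintro ⟨b, s⟩ ⟨b', s'⟩
    rw [Fin.sum_univ_four]
    simp only [X, mmT, mm_mul, hA, hB, hHs, transpose_zero, transpose_one, mul_zero, zero_mul,
      mul_one, hHq, Matrix.zero_apply, zero_add, add_zero, Matrix.smul_apply, smul_eq_mul]
    have h1 := wAB_sq h4 hg s s'
    rw [Fintype.card_prod, Fintype.card_bool]
    by_cases hss : s = s'
    · subst hss
      rw [if_pos rfl] at h1
      rw [Matrix.one_apply_eq]
      by_cases hbb : b = b'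
      · subst hbb
        rw [if_pos rfl, bs_sq]
        push_cast
        linarith
      · rw [if_neg (fun h => hbb (Prod.mk.inj h).1)]
        have : bs b * bs b' = -1 := by
          cases b <;> cases b' <;> simp_all [bs]
        rw [this]
        linarith
    · rw [if_neg hss] at h1
      rw [if_neg (fun h => hss (Prod.mk.inj h).2), Matrix.one_apply_ne hss]
      linarith

theorem had_of_wil {G : Type} [AddCommGroup G] [Fintype G] {t : Fin 4 → G → ℤ}
    (ht : TMat t) {ι : Type} [Fintype ι] [DecidableEq ι] {W : Fin 4 → Matrix ι ι ℤ} (hW : Wil W)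
    {N : ℕ} (hN : 4 * Fintype.card G * Fintype.card ι = N) : HasHad N := by
  classical
  have hc : Fintype.card ((Fin 4 × G) × ι) = N := by
    rw [Fintype.card_prod, Fintype.card_prod, Fintype.card_fin, hN]
  let e : Fin N ≃ (Fin 4 × G) × ι := (Fintype.equivFinOfCardEq hc).symm
  refine ⟨(big t W).submatrix e e, fun i j => big_sign ht hW _ _, ?_⟩
  rw [transpose_submatrix, submatrix_mul_equiv, big_mul ht hW, hN]
  ext i j
  rw [Matrix.submatrix_apply, Matrix.smul_apply, Matrix.smul_apply, Matrix.one_apply,
    Matrix.one_apply]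
  by_cases hij : i = j
  · rw [if_pos hij, if_pos (congrArg e hij)]
  · rw [if_neg hij, if_neg (fun h => hij (e.injective h))]

end field

end Pool.Agent.Q163.HD
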