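import Mathlib
import Pool.Agent.Q163.HD.Wil

/-!
# T-sequences from two Golay pairs and the main theorem
-/

set_option autoImplicit false

namespace Pool.Agent.Q163.HD

open Finset
open Pool.Agent.Y342.SK (entry)
open Pool.Agent.H108R3.Had (IsPU PU PUk evM HasHad St_dbl t_P1 t_P2 t_P4 lift)

/-- the sequence `X` placed at `o, …, o + S - 1` -/
def pl (L o S : ℕ) (X : ℕ → ℤ) (d : ZMod L) : ℤ :=
  ∑ n ∈ range S, X n * (if ((o + n : ℕ) : ZMod L) = d then 1 else 0)

theorem pl_corr {L : ℕ} [NeZero L] (o S : ℕ) (X : ℕ → ℤ) (d : ZMod L) :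
    ∑ z, pl L o S X (z + d) * pl L o S X z =
      ∑ n ∈ range S, ∑ m ∈ range S, (X n * X m) * (if (n : ZMod L) - m = d then 1 else 0) := by
  unfold pl
  simp only [Finset.sum_mul_sum]
  rw [Finset.sum_comm]
  refine Finset.sum_congr rfl fun n _ => ?_
  rw [Finset.sum_comm]
  refine Finset.sum_congr rfl fun m _ => ?_
  rw [Finset.sum_eq_single (((o + m : ℕ) : ZMod L))]
  · rw [if_pos (rfl : ((o + m : ℕ) : ZMod L) = ((o + m : ℕ) : ZMod L))]
    by_cases h : (n : ZMod L) - m = d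
    · rw [if_pos h, if_pos]
      · ring
      · rw [← h]; push_cast; ring
    · rw [if_neg h, if_neg]
      · ring
      · intro h'
        apply h
        push_cast at h'
        linear_combination h'
  · intro b _ hb
    rw [if_neg (Ne.symm hb)]
    ring
  · intro h
    exact absurd (mem_univ _) h

theorem pl_in {L : ℕ} [NeZero L] (o S : ℕ) (hL : o + S ≤ L) (X : ℕ → ℤ) (d : ZMod L)
    (h1 : o ≤ d.val) (h2 : d.val < o + S) : pl L o S X d = X (d.val - o) := by
  unfold pl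
  rw [Finset.sum_eq_single (d.val - o)]
  · rw [if_pos, mul_one]
    rw [Nat.add_sub_cancel' h1, ZMod.natCast_zmod_val]
  · intro n hn hne
    rw [if_neg, mul_zero]
    intro h
    apply hne
    have h3 := congrArg ZMod.val h
    rw [ZMod.val_cast_of_lt (by rw [mem_range] at hn; omega)] at h3
    omega
  · intro h
    exact absurd (mem_range.2 (by omega)) h

theorem pl_out {L : ℕ} [NeZero L] (o S : ℕ) (hL : o + S ≤ L) (X : ℕ → ℤ) (d : ZMod L)
    (h : d.val < o ∨ o + S ≤ d.val) : pl L o S X d = 0 := by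
  unfold pl
  refine Finset.sum_eq_zero fun n hn => ?_
  rw [if_neg, mul_zero]
  intro h'
  have h3 := congrArg ZMod.val h'
  rw [ZMod.val_cast_of_lt (by rw [mem_range] at hn; omega)] at h3
  rw [mem_range] at hn
  omega

/-- half sum and half difference -/
def hp (x y : ℤ) : ℤ := (x + y) / 2

def hm (x y : ℤ) : ℤ := (x - y) / 2

theorem hpm {x y : ℤ} (hx : x = 1 ∨ x = -1) (hy : y = 1 ∨ y = -1) :
    ((hp x y = 1 ∨ hp x y = -1) ∧ hm x y = 0) ∨ ((hm x y = 1 ∨ hm x y = -1) ∧ hp x y = 0) := by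
  rcases hx with rfl | rfl <;> rcases hy with rfl | rfl <;> norm_num [hp, hm]

theorem hpm2 {x y : ℤ} (hx : x = 1 ∨ x = -1) (hy : y = 1 ∨ y = -1) :
    2 * hp x y = x + y ∧ 2 * hm x y = x - y := by
  rcases hx with rfl | rfl <;> rcases hy with rfl | rfl <;> norm_num [hp, hm]

theorem pair_corr {S L : ℕ} [NeZero L] {W : ℕ → Fin 2 → Fin 2 → ℤ} (hW : IsPU S W) (o : ℕ)
    (d : ZMod L) (hd : d ≠ 0) :
    ∑ z, pl L o S (fun n => hp (W n 0 0) (W n 0 1)) (z + d) * pl L o S (fun n => hp (W n 0 0) (W n 0 1)) z +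
      ∑ z, pl L o S (fun n => hm (W n 0 0) (W n 0 1)) (z + d) * pl L o S (fun n => hm (W n 0 0) (W n 0 1)) z = 0 := by
  have h1 := entry hW 0 d
  rw [if_neg hd, Fin.sum_univ_two] at h1
  rw [pl_corr, pl_corr]
  have h2 : 2 * ((∑ n ∈ range S, ∑ m ∈ range S, (hp (W n 0 0) (W n 0 1) * hp (W m 0 0) (W m 0 1)) *
        (if (n : ZMod L) - m = d then 1 else 0)) +
      ∑ n ∈ range S, ∑ m ∈ range S, (hm (W n 0 0) (W n 0 1) * hm (W m 0 0) (W m 0 1)) *
        (if (n : ZMod L) - m = d then 1 else 0)) =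
      (∑ n ∈ range S, ∑ m ∈ range S, W n 0 0 * W m 0 0 * (if (n : ZMod L) - m = d then 1 else 0)) +
      ∑ n ∈ range S, ∑ m ∈ range S, W n 0 1 * W m 0 1 * (if (n : ZMod L) - m = d then 1 else 0) := by
    rw [← sum_add_distrib, ← sum_add_distrib, mul_sum]
    refine sum_congr rfl fun n hn => ?_
    rw [← sum_add_distrib, ← sum_add_distrib, mul_sum]
    refine sum_congr rfl fun m hm' => ?_
    rw [mem_range] at hn hm'
    obtain ⟨a1, a2⟩ := hpm2 (hW.sign n hn 0 0) (hW.sign n hn 0 1)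
    obtain ⟨b1, b2⟩ := hpm2 (hW.sign m hm' 0 0) (hW.sign m hm' 0 1)
    have e : 2 * (hp (W n 0 0) (W n 0 1) * hp (W m 0 0) (W m 0 1) +
        hm (W n 0 0) (W n 0 1) * hm (W m 0 0) (W m 0 1)) = W n 0 0 * W m 0 0 + W n 0 1 * W m 0 1 := by
      have e1 : 2 * (2 * (hp (W n 0 0) (W n 0 1) * hp (W m 0 0) (W m 0 1) +
        hm (W n 0 0) (W n 0 1) * hm (W m 0 0) (W m 0 1))) =
          2 * (W n 0 0 * W m 0 0 + W n 0 1 * W m 0 1) := by
        calc _ = (2 * hp (W n 0 0) (W n 0 1)) * (2 * hp (W m 0 0) (W m 0 1)) +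
              (2 * hm (W n 0 0) (W n 0 1)) * (2 * hm (W m 0 0) (W m 0 1)) := by ring
          _ = _ := by rw [a1, a2, b1, b2]; ring
      linarith
    linear_combination (if (n : ZMod L) - m = d then (1 : ℤ) else 0) * e
  rw [h1] at h2
  linarith

/-- T-matrices from two Golay pairs -/
theorem tmat_of {S₁ S₂ : ℕ} (h1 : PUk 1 S₁) (h2 : PUk 1 S₂) (L : ℕ) [NeZero L]
    (hL : L = S₁ + S₂) : ∃ t : Fin 4 → ZMod L → ℤ, TMat t := by
  obtain ⟨W, hW⟩ := h1
  obtain ⟨V, hV⟩ := h2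
  change IsPU (ι := Fin 2) S₁ W at hW
  change IsPU (ι := Fin 2) S₂ V at hV
  let t : Fin 4 → ZMod L → ℤ := fun j =>
    match j with
    | 0 => pl L 0 S₁ (fun n => hp (W n 0 0) (W n 0 1))
    | 1 => pl L 0 S₁ (fun n => hm (W n 0 0) (W n 0 1))
    | 2 => pl L S₁ S₂ (fun n => hp (V n 0 0) (V n 0 1))
    | 3 => pl L S₁ S₂ (fun n => hm (V n 0 0) (V n 0 1))
  refine ⟨t, ?_, ?_⟩
  · intro g
    have hg := ZMod.val_lt g
    by_cases hlt : g.val < S₁
    · have e0 : t 0 g = hp (W g.val 0 0) (W g.val 0 1) :=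
        pl_in 0 S₁ (by omega) _ g (Nat.zero_le _) (by omega)
      have e1 : t 1 g = hm (W g.val 0 0) (W g.val 0 1) :=
        pl_in 0 S₁ (by omega) _ g (Nat.zero_le _) (by omega)
      have e2 : t 2 g = 0 := pl_out S₁ S₂ (by omega) _ g (Or.inl hlt)
      have e3 : t 3 g = 0 := pl_out S₁ S₂ (by omega) _ g (Or.inl hlt)
      rcases hpm (hW.sign g.val hlt 0 0) (hW.sign g.val hlt 0 1) with ⟨h, h'⟩ | ⟨h, h'⟩
      · refine ⟨0, by rw [e0]; exact h, fun l hl => ?_⟩
        fin_cases l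
        · exact absurd rfl hl
        · exact e1.trans h'
        · exact e2
        · exact e3
      · refine ⟨1, by rw [e1]; exact h, fun l hl => ?_⟩
        fin_cases l
        · exact e0.trans h'
        · exact absurd rfl hl
        · exact e2
        · exact e3
    · have hlt' : g.val - S₁ < S₂ := by omega
      have e0 : t 2 g = hp (V (g.val - S₁) 0 0) (V (g.val - S₁) 0 1) :=
        pl_in S₁ S₂ (by omega) _ g (by omega) (by omega)
      have e1 : t 3 g = hm (V (g.val - S₁) 0 0) (V (g.val - S₁) 0 1) :=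
        pl_in S₁ S₂ (by omega) _ g (by omega) (by omega)
      have e2 : t 0 g = 0 := pl_out 0 S₁ (by omega) _ g (Or.inr (by omega))
      have e3 : t 1 g = 0 := pl_out 0 S₁ (by omega) _ g (Or.inr (by omega))
      rcases hpm (hV.sign _ hlt' 0 0) (hV.sign _ hlt' 0 1) with ⟨h, h'⟩ | ⟨h, h'⟩
      · refine ⟨2, by rw [e0]; exact h, fun l hl => ?_⟩
        fin_cases l
        · exact e2
        · exact e3
        · exact absurd rfl hl
        · exact e1.trans h'
      · refine ⟨3, by rw [e1]; exact h, fun l hl => ?_⟩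
        fin_cases l
        · exact e2
        · exact e3
        · exact e0.trans h'
        · exact absurd rfl hl
  · intro d hd
    rw [Fin.sum_univ_four]
    have h1 := pair_corr hW 0 d hd
    have h2 := pair_corr hV S₁ d hd
    change ∑ z, t 0 (z + d) * t 0 z + ∑ z, t 1 (z + d) * t 1 z = 0 at h1
    change ∑ z, t 2 (z + d) * t 2 z + ∑ z, t 3 (z + d) * t 3 z = 0 at h2
    linarith

theorem golay (a : ℕ) : PUk 1 (2 ^ a) := by
  induction a with
  | zero => exact lift 0 1 t_P2.2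
  | succ a ih =>
    rw [pow_succ']
    exact t_P4 t_P1 1 _ le_rfl ih

open Pool.Agent.W851.Had (tow)

/-- Hadamard matrices of order `4 u q` -/
theorem main_uq : ∃ C : ℕ, 2 ≤ C ∧ ∀ n q t : ℕ, IsPrimePow q → q ≤ tow n →
    2 ^ C ^ (n + 1) ≤ t → 2 ^ t ∣ q - 1 → ∀ (G : Type) [AddCommGroup G] [Fintype G]
      (T : Fin 4 → G → ℤ), TMat T → HasHad (4 * Fintype.card G * q) := by
  obtain ⟨C, hC, h⟩ := main_symm
  refine ⟨C + 1, by omega, fun n q t hq hqn ht hd G _ _ T hT => ?_⟩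
  have ht' : 2 ^ C ^ (n + 1) + 2 ≤ t := by
    refine le_trans ?_ ht
    have h1 : C ^ (n + 1) + 1 ≤ (C + 1) ^ (n + 1) := by
      have := pow_add_pow_le (by omega : 0 ≤ C) (by omega : 0 ≤ 1) (n := n + 1) (by omega)
      simpa using this
    have h2 : 2 ^ (C ^ (n + 1) + 1) ≤ 2 ^ (C + 1) ^ (n + 1) := Nat.pow_le_pow_right (by norm_num) h1
    rw [pow_succ] at h2
    have h3 : 2 ^ 1 ≤ 2 ^ C ^ (n + 1) :=
      Nat.pow_le_pow_right (by norm_num) (Nat.one_le_pow _ _ (by omega))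
    omega
  have ht2 : 2 ≤ t := le_trans (Nat.le_add_left 2 _) ht'
  obtain ⟨s, rfl⟩ : ∃ s, t = s + 1 := ⟨t - 1, by omega⟩
  have hs1 : 2 ^ C ^ (n + 1) + 1 ≤ s := by
    have : 2 ^ C ^ (n + 1) + 1 + 1 ≤ s + 1 := ht'
    exact Nat.le_of_add_le_add_right this
  have hs0 : 1 ≤ s := le_trans (Nat.le_add_left 1 _) hs1
  have hq1 := hq.one_lt
  obtain ⟨w, hw⟩ := hd
  have hw0 : 0 < w := by
    rcases Nat.eq_zero_or_pos w with h0 | h0
    · rw [h0] at hw; omega
    · exact h0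
  have e1 : q = 2 * (2 ^ s * w) + 1 := by
    have : 2 ^ (s + 1) * w = 2 * (2 ^ s * w) := by rw [pow_succ]; ring
    omega
  have hwq : w ≤ q := by
    have : 1 * w ≤ 2 ^ s * w := Nat.mul_le_mul_right _ Nat.one_le_two_pow
    omega
  have h2s : 2 ∣ 2 ^ s * w := Dvd.dvd.mul_right (dvd_pow_self 2 (by omega)) w
  have hsym := h n w s hw0 (hwq.trans hqn) (le_trans (Nat.le_add_right _ 1) hs1)
  obtain ⟨p, k, hp, hk, rfl⟩ := hq
  have hpp : p.Prime := hp.nat_prime
  have : Fact p.Prime := ⟨hpp⟩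
  have : Fintype (GaloisField p k) := Fintype.ofFinite _
  classical
  have hcF : Fintype.card (GaloisField p k) = p ^ k := by
    rw [← Nat.card_eq_fintype_card]
    exact GaloisField.card p k (by omega)
  obtain ⟨W, hW⟩ := wil_field (F := GaloisField p k) (by rw [hcF]; omega) (h := 2 ^ s * w)
    (by rw [hcF]; omega) hsym
  obtain ⟨g, hg⟩ := exists_nonsq (F := GaloisField p k) (by rw [hcF]; omega)
  refine had_of_wil hT hW ?_
  have hcs := card_sq hg
  rw [Fintype.card_option, Fintype.card_prod, Fintype.card_bool]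
  have : Fintype.card (GaloisField p k) = 1 + 2 * Fintype.card (Sq (GaloisField p k)) := by
    exact_mod_cast hcs
  rw [← hcF, this]
  ring

end Pool.Agent.Q163.HD
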